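import Pool.Agent.TH887.SP.Main6

/-!
From good sets to all finite sets of nonzero integers and rationals.
-/

set_option autoImplicit false

namespace Pool.Agent.TH887.SP

open Finset H633R4.SP
open scoped Pointwise

/-- positive integers prime to `6` -/
theorem good_of_coprime {A : Finset ℤ} (h : ∀ a ∈ A, 0 < a ∧ IsCoprime a 6) : Good A := by
  have h2 : ∀ a ∈ A, padicValInt 2 a = 0 := by
    intro a ha
    rw [padicValInt.eq_zero_iff]
    right; right
    intro hd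
    have := (h a ha).2
    rw [Int.isCoprime_iff_gcd_eq_one] at this
    have h3 : ((2 : ℕ) : ℤ) ∣ Int.gcd a 6 := Int.dvd_coe_gcd hd (by norm_num)
    rw [this] at h3
    norm_num at h3
  have h3 : ∀ a ∈ A, padicValInt 3 a = 0 := by
    intro a ha
    rw [padicValInt.eq_zero_iff]
    right; right
    intro hd
    have := (h a ha).2
    rw [Int.isCoprime_iff_gcd_eq_one] at this
    have h3 : ((3 : ℕ) : ℤ) ∣ Int.gcd a 6 := Int.dvd_coe_gcd hd (by norm_num)
    rw [this] at h3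
    norm_num at h3
  refine ⟨fun a ha => (h a ha).1.ne', fun a ha b hb hab => ?_, fun a ha a' _ b hb _ hlt => ?_,
    fun a ha a' _ b hb _ hlt => ?_⟩
  · have := (h a ha).1
    have := (h b hb).1
    omega
  · rw [h2 a ha, h2 b hb] at hlt
    omega
  · rw [h3 a ha, h3 b hb] at hlt
    omega

/-- the class of a nonzero integer -/
def cls (a : ℤ) : ℕ × ℤ × ℤ :=
  (padicValInt 2 a % 2, (a / 2 ^ padicValInt 2 a) % 4, (a / 3 ^ padicValInt 3 a) % 3)

theorem unit_part (p : ℕ) [hp : Fact p.Prime] {a : ℤ} (ha : a ≠ 0) :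
    a = (p : ℤ) ^ padicValInt p a * (a / (p : ℤ) ^ padicValInt p a) ∧
      ¬ (p : ℤ) ∣ a / (p : ℤ) ^ padicValInt p a := by
  have h1 : (p : ℤ) ^ padicValInt p a ∣ a := (padicValInt_dvd_iff _ _).2 (Or.inr le_rfl)
  have h2 : (p : ℤ) ^ padicValInt p a * (a / (p : ℤ) ^ padicValInt p a) = a :=
    Int.mul_ediv_cancel' h1
  refine ⟨h2.symm, fun hd => ?_⟩
  obtain ⟨y, hy⟩ := hd
  have h3 : (p : ℤ) ^ (padicValInt p a + 1) ∣ a := by
    refine ⟨y, ?_⟩
    rw [hy] at h2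
    rw [pow_succ]
    linear_combination (-1 : ℤ) * h2
  rw [padicValInt_dvd_iff] at h3
  rcases h3 with h | h
  · exact ha h
  · omega

theorem cls_good {A : Finset ℤ} (h0 : ∀ a ∈ A, a ≠ 0) {c : ℕ × ℤ × ℤ}
    (hc : ∀ a ∈ A, cls a = c) : Good A := by
  have hcc : ∀ a ∈ A, ∀ b ∈ A, padicValInt 2 a % 2 = padicValInt 2 b % 2 ∧
      (a / 2 ^ padicValInt 2 a) % 4 = (b / 2 ^ padicValInt 2 b) % 4 ∧
      (a / 3 ^ padicValInt 3 a) % 3 = (b / 3 ^ padicValInt 3 b) % 3 := by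
    intro a ha b hb
    have h := (hc a ha).trans (hc b hb).symm
    unfold cls at h
    rw [Prod.mk.injEq, Prod.mk.injEq] at h
    exact h
  refine ⟨h0, fun a ha b hb hab => ?_, fun a ha a' ha' b hb he hlt => ⟨?_, ?_⟩,
    fun a ha a' ha' b hb he _ => ?_⟩
  · rcases Int.natAbs_eq_natAbs_iff.1 hab with h | h
    · exact h
    · exfalso
      have hv : padicValInt 2 a = padicValInt 2 b := by
        unfold padicValInt; rw [hab]
      obtain ⟨-, h1, -⟩ := hcc a ha b hb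
      obtain ⟨e1, n1⟩ := unit_part 2 (h0 a ha)
      obtain ⟨e2, n2⟩ := unit_part 2 (h0 b hb)
      rw [hv] at e1 n1 h1
      push_cast at e1 n1 e2 n2
      set x := a / 2 ^ padicValInt 2 b
      set y := b / 2 ^ padicValInt 2 b
      have h2 : (2 : ℤ) ^ padicValInt 2 b * (x + y) = 0 := by
        linear_combination h - e1 - e2
      have h3 : x + y = 0 := by
        rcases mul_eq_zero.1 h2 with h4 | h4
        · exact absurd h4 (by positivity)
        · exact h4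
      omega
  · obtain ⟨h1, -, -⟩ := hcc a ha b hb
    have h5 : ((2 : ℕ) : ℤ) ^ (padicValInt 2 a + 2) ∣ b :=
      (padicValInt_dvd_iff (p := 2) _ b).2 (Or.inr (by omega))
    exact_mod_cast h5
  · obtain ⟨-, h1, -⟩ := hcc a ha a' ha'
    obtain ⟨e1, n1⟩ := unit_part 2 (h0 a ha)
    obtain ⟨e2, n2⟩ := unit_part 2 (h0 a' ha')
    rw [← he] at e2 n2 h1
    push_cast at e1 n1 e2 n2
    have h2 : (4 : ℤ) ∣ a / 2 ^ padicValInt 2 a - a' / 2 ^ padicValInt 2 a :=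
      Int.dvd_of_emod_eq_zero (Int.emod_eq_emod_iff_emod_sub_eq_zero.1 h1)
    obtain ⟨z, hz⟩ := h2
    refine ⟨z, ?_⟩
    rw [pow_add]
    linear_combination e1 - e2 + (2 : ℤ) ^ padicValInt 2 a * hz
  · obtain ⟨-, -, h1⟩ := hcc a ha a' ha'
    obtain ⟨e1, n1⟩ := unit_part 3 (h0 a ha)
    obtain ⟨e2, n2⟩ := unit_part 3 (h0 a' ha')
    rw [← he] at e2 n2 h1
    push_cast at e1 n1 e2 n2
    have h2 : (3 : ℤ) ∣ a / 3 ^ padicValInt 3 a - a' / 3 ^ padicValInt 3 a :=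
      Int.dvd_of_emod_eq_zero (Int.emod_eq_emod_iff_emod_sub_eq_zero.1 h1)
    obtain ⟨z, hz⟩ := h2
    refine ⟨z, ?_⟩
    rw [pow_succ]
    linear_combination e1 - e2 + (3 : ℤ) ^ padicValInt 3 a * hz

theorem cls_mem {a : ℤ} (ha : a ≠ 0) :
    cls a ∈ (({0, 1} : Finset ℕ) ×ˢ (({1, 3} : Finset ℤ) ×ˢ ({1, 2} : Finset ℤ))) := by
  obtain ⟨-, n1⟩ := unit_part 2 ha
  obtain ⟨-, n2⟩ := unit_part 3 ha
  push_cast at n1 n2
  unfold cls
  simp only [Finset.mem_product, Finset.mem_insert, Finset.mem_singleton]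
  refine ⟨by omega, by omega, by omega⟩

/-- every finite set of nonzero integers has a good subset with at least an eighth of its
elements -/
theorem exists_good (A : Finset ℤ) (h0 : (0 : ℤ) ∉ A) :
    ∃ A' : Finset ℤ, A' ⊆ A ∧ Good A' ∧ A.card ≤ 8 * A'.card := by
  classical
  have h0' : ∀ a ∈ A, a ≠ 0 := fun a ha h => h0 (h ▸ ha)
  obtain ⟨c, -, hc⟩ := Finset.exists_le_card_fiber_of_nsmul_le_card_of_maps_to (s := A)
    (t := (({0, 1} : Finset ℕ) ×ˢ (({1, 3} : Finset ℤ) ×ˢ ({1, 2} : Finset ℤ))))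
    (f := cls) (b := (A.card : ℝ) / 8) (fun a ha => cls_mem (h0' a ha))
    ⟨(0, 1, 1), by simp⟩ (by
      have : (({0, 1} : Finset ℕ) ×ˢ (({1, 3} : Finset ℤ) ×ˢ ({1, 2} : Finset ℤ))).card = 8 := by
        rfl
      rw [this, nsmul_eq_mul]
      push_cast
      linarith)
  refine ⟨A.filter (fun a => cls a = c), Finset.filter_subset _ _, ?_, ?_⟩
  · apply cls_good (c := c)
    · intro a ha
      exact h0' a (Finset.mem_of_mem_filter a ha)
    · intro a ha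
      exact (Finset.mem_filter.1 ha).2
  · have : (A.card : ℝ) ≤ 8 * ((A.filter (fun a => cls a = c)).card : ℝ) := by linarith
    exact_mod_cast this

/-- finite sets of nonzero integers -/
theorem fin6_ne (A B : Finset ℤ) (hA : (0 : ℤ) ∉ A) (hB : (0 : ℤ) ∉ B) :
    (A.card * B.card) ^ 5 ≤ 2 ^ 30 * ((A + B).card ^ 2 * (A * B).card ^ 6) ∧
    (A.card * B.card) ^ 5 ≤ 2 ^ 30 * ((A - B).card ^ 2 * (A * B).card ^ 6) := by
  obtain ⟨A', hA', hGA, hcA⟩ := exists_good A hA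
  obtain ⟨B', hB', hGB, hcB⟩ := exists_good B hB
  obtain ⟨h1, h2⟩ := good_thm A' B' hGA hGB
  have hp : (A.card * B.card) ^ 5 ≤ 2 ^ 30 * (A'.card * B'.card) ^ 5 := by
    calc (A.card * B.card) ^ 5 ≤ ((8 * A'.card) * (8 * B'.card)) ^ 5 :=
          Nat.pow_le_pow_left (Nat.mul_le_mul hcA hcB) 5
      _ = 2 ^ 30 * (A'.card * B'.card) ^ 5 := by ring
  have hm : (A' * B').card ^ 6 ≤ (A * B).card ^ 6 :=
    Nat.pow_le_pow_left (Finset.card_le_card (Finset.mul_subset_mul hA' hB')) 6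
  have ha : (A' + B').card ^ 2 ≤ (A + B).card ^ 2 :=
    Nat.pow_le_pow_left (Finset.card_le_card (Finset.add_subset_add hA' hB')) 2
  have hd : (A' - B').card ^ 2 ≤ (A - B).card ^ 2 :=
    Nat.pow_le_pow_left (Finset.card_le_card (Finset.sub_subset_sub hA' hB')) 2
  exact ⟨hp.trans (Nat.mul_le_mul_left _ (h1.trans (Nat.mul_le_mul ha hm))),
    hp.trans (Nat.mul_le_mul_left _ (h2.trans (Nat.mul_le_mul hd hm)))⟩

/-- all finite sets of integers -/
theorem fin6_all (A : Finset ℤ) :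
    A.card ^ 5 ≤ 2 ^ 20 * ((A + A).card * (A * A).card ^ 3) ∧
    A.card ^ 5 ≤ 2 ^ 20 * ((A - A).card * (A * A).card ^ 3) := by
  classical
  obtain ⟨h1, h2⟩ := fin6_ne (A.erase 0) (A.erase 0) (Finset.notMem_erase _ _)
    (Finset.notMem_erase _ _)
  have hs : A.erase 0 ⊆ A := Finset.erase_subset _ _
  have hm : (A.erase 0 * A.erase 0).card ≤ (A * A).card :=
    Finset.card_le_card (Finset.mul_subset_mul hs hs)
  have ha : (A.erase 0 + A.erase 0).card ≤ (A + A).card :=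
    Finset.card_le_card (Finset.add_subset_add hs hs)
  have hd : (A.erase 0 - A.erase 0).card ≤ (A - A).card :=
    Finset.card_le_card (Finset.sub_subset_sub hs hs)
  have hc : A.card - 1 ≤ (A.erase 0).card := Finset.pred_card_le_card_erase
  rcases A.eq_empty_or_nonempty with hA | hA
  · subst hA; simp
  have p1 := (hA.add hA).card_pos
  have p2 := (hA.sub hA).card_pos
  have p3 := (hA.mul hA).card_pos
  rcases Nat.eq_zero_or_pos (A.erase 0).card with h0 | h0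
  · have hA1 : A.card ≤ 1 := by omega
    have h6 : A.card ^ 5 ≤ 1 := by
      calc A.card ^ 5 ≤ 1 ^ 5 := Nat.pow_le_pow_left hA1 5
        _ = 1 := by norm_num
    have q1 : 1 ≤ (A + A).card * (A * A).card ^ 3 :=
      Nat.mul_pos p1 (pow_pos p3 3)
    have q2 : 1 ≤ (A - A).card * (A * A).card ^ 3 :=
      Nat.mul_pos p2 (pow_pos p3 3)
    omega
  · have hle : A.card ≤ 2 * (A.erase 0).card := by omega
    -- square root of the two-set inequality
    have key : ∀ S : ℕ, ((A.erase 0).card * (A.erase 0).card) ^ 5 ≤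
        2 ^ 30 * (S ^ 2 * (A.erase 0 * A.erase 0).card ^ 6) →
        (A.erase 0).card ^ 5 ≤ 2 ^ 15 * (S * (A.erase 0 * A.erase 0).card ^ 3) := by
      intro S hS
      have e1 : ((A.erase 0).card * (A.erase 0).card) ^ 5 = ((A.erase 0).card ^ 5) ^ 2 := by ring
      have e2 : 2 ^ 30 * (S ^ 2 * (A.erase 0 * A.erase 0).card ^ 6) =
          (2 ^ 15 * (S * (A.erase 0 * A.erase 0).card ^ 3)) ^ 2 := by ring
      rw [e1, e2] at hS
      exact (Nat.pow_le_pow_iff_left (by norm_num)).1 hS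
    have k1 := key _ h1
    have k2 := key _ h2
    have h6 : A.card ^ 5 ≤ 2 ^ 5 * (A.erase 0).card ^ 5 := by
      calc A.card ^ 5 ≤ (2 * (A.erase 0).card) ^ 5 := Nat.pow_le_pow_left hle 5
        _ = 2 ^ 5 * (A.erase 0).card ^ 5 := by ring
    have m4 := Nat.pow_le_pow_left hm 3
    have q1 := Nat.mul_le_mul ha m4
    have q2 := Nat.mul_le_mul hd m4
    omega

/-- exponent form -/
theorem fin6_exp (A : Finset ℤ) (τ : ℝ) (hA : A.Nonempty)
    (h : ((A * A).card : ℝ) ≤ (A.card : ℝ) ^ (1 + τ)) :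
    (A.card : ℝ) ^ (2 - 3 * τ) ≤ 2 ^ 20 * ((A + A).card : ℝ) ∧
    (A.card : ℝ) ^ (2 - 3 * τ) ≤ 2 ^ 20 * ((A - A).card : ℝ) := by
  obtain ⟨h1, h2⟩ := fin6_all A
  have hpos : (0 : ℝ) < (A.card : ℝ) := by exact_mod_cast hA.card_pos
  have h4 : ((A * A).card : ℝ) ^ 3 ≤ (A.card : ℝ) ^ (3 + 3 * τ) := by
    calc ((A * A).card : ℝ) ^ 3 ≤ ((A.card : ℝ) ^ (1 + τ)) ^ 3 :=
          pow_le_pow_left₀ (Nat.cast_nonneg _) h 3
      _ = (A.card : ℝ) ^ (3 + 3 * τ) := by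
          rw [← Real.rpow_natCast, ← Real.rpow_mul hpos.le]
          congr 1
          push_cast
          ring
  have e : (A.card : ℝ) ^ (5 : ℕ) = (A.card : ℝ) ^ (2 - 3 * τ) * (A.card : ℝ) ^ (3 + 3 * τ) := by
    rw [← Real.rpow_add hpos, ← Real.rpow_natCast]
    congr 1
    push_cast
    ring
  have hp : (0 : ℝ) < (A.card : ℝ) ^ (3 + 3 * τ) := Real.rpow_pos_of_pos hpos _
  have key : ∀ S : ℕ, A.card ^ 5 ≤ 2 ^ 20 * (S * (A * A).card ^ 3) →
      (A.card : ℝ) ^ (2 - 3 * τ) ≤ 2 ^ 20 * (S : ℝ) := by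
    intro S hS
    have h1' : (A.card : ℝ) ^ (5 : ℕ) ≤ 2 ^ 20 * ((S : ℝ) * ((A * A).card : ℝ) ^ 3) := by
      exact_mod_cast hS
    rw [e] at h1'
    have : 2 ^ 20 * ((S : ℝ) * ((A * A).card : ℝ) ^ 3) ≤
        2 ^ 20 * (S : ℝ) * (A.card : ℝ) ^ (3 + 3 * τ) := by
      rw [← mul_assoc]
      exact mul_le_mul_of_nonneg_left h4 (by positivity)
    exact le_of_mul_le_mul_right (h1'.trans this) hp
  exact ⟨key _ h1, key _ h2⟩

/-- finite sets of nonzero rational numbers -/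
theorem fin6_rat (A B : Finset ℚ) (hA : (0 : ℚ) ∉ A) (hB : (0 : ℚ) ∉ B) :
    (A.card * B.card) ^ 5 ≤ 2 ^ 30 * ((A + B).card ^ 2 * (A * B).card ^ 6) ∧
    (A.card * B.card) ^ 5 ≤ 2 ^ 30 * ((A - B).card ^ 2 * (A * B).card ^ 6) := by
  classical
  obtain ⟨b, hb⟩ := IsLocalization.exist_integer_multiples_of_finset (nonZeroDivisors ℤ)
    (A ∪ B)
  have hb0 : ((b : ℤ) : ℚ) ≠ 0 := by
    have := nonZeroDivisors.coe_ne_zero b
    exact_mod_cast this
  have hz : ∀ a ∈ A ∪ B, ∃ z : ℤ, (z : ℚ) = ((b : ℤ) : ℚ) * a := by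
    intro a ha
    obtain ⟨z, hz⟩ := hb a ha
    refine ⟨z, ?_⟩
    have : (algebraMap ℤ ℚ) z = (z : ℚ) := rfl
    rw [this] at hz
    rw [hz, zsmul_eq_mul]
  choose! F hF using hz
  have hFA : ∀ a ∈ A, (F a : ℚ) = ((b : ℤ) : ℚ) * a := fun a ha =>
    hF a (Finset.mem_union_left _ ha)
  have hFB : ∀ a ∈ B, (F a : ℚ) = ((b : ℤ) : ℚ) * a := fun a ha =>
    hF a (Finset.mem_union_right _ ha)
  have inj : ∀ S : Finset ℚ, (∀ a ∈ S, (F a : ℚ) = ((b : ℤ) : ℚ) * a) →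
      (S.image F).card = S.card := by
    intro S hS
    apply Finset.card_image_of_injOn
    intro x hx y hy hxy
    have h1 := hS x hx
    have h2 := hS y hy
    rw [hxy, h2] at h1
    exact (mul_left_cancel₀ hb0 h1).symm
  have z : ∀ S : Finset ℚ, (0 : ℚ) ∉ S → (∀ a ∈ S, (F a : ℚ) = ((b : ℤ) : ℚ) * a) →
      (0 : ℤ) ∉ S.image F := by
    intro S h0 hS h
    obtain ⟨a, ha, h1⟩ := Finset.mem_image.1 h
    have h2 := hS a ha
    rw [h1, Int.cast_zero] at h2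
    rcases mul_eq_zero.1 h2.symm with h3 | h3
    · exact hb0 h3
    · exact h0 (h3 ▸ ha)
  have hcast : Function.Injective (fun z : ℤ => (z : ℚ)) := Int.cast_injective
  have csum : (A.image F + B.image F).card = (A + B).card := by
    rw [← Finset.card_image_of_injective _ hcast,
      ← Finset.card_image_of_injective (A + B) (f := fun x => ((b : ℤ) : ℚ) * x)
        (fun x y h => mul_left_cancel₀ hb0 h)]
    congr 1
    ext x
    simp only [Finset.mem_image, Finset.mem_add]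
    constructor
    · rintro ⟨_, ⟨_, ⟨a, ha, rfl⟩, _, ⟨c, hc, rfl⟩, rfl⟩, rfl⟩
      refine ⟨a + c, ⟨a, ha, c, hc, rfl⟩, ?_⟩
      push_cast
      rw [hFA a ha, hFB c hc]; ring
    · rintro ⟨_, ⟨a, ha, c, hc, rfl⟩, rfl⟩
      refine ⟨F a + F c, ⟨F a, ⟨a, ha, rfl⟩, F c, ⟨c, hc, rfl⟩, rfl⟩, ?_⟩
      push_cast
      rw [hFA a ha, hFB c hc]; ring
  have cdiff : (A.image F - B.image F).card = (A - B).card := by
    rw [← Finset.card_image_of_injective _ hcast,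
      ← Finset.card_image_of_injective (A - B) (f := fun x => ((b : ℤ) : ℚ) * x)
        (fun x y h => mul_left_cancel₀ hb0 h)]
    congr 1
    ext x
    simp only [Finset.mem_image, Finset.mem_sub]
    constructor
    · rintro ⟨_, ⟨_, ⟨a, ha, rfl⟩, _, ⟨c, hc, rfl⟩, rfl⟩, rfl⟩
      refine ⟨a - c, ⟨a, ha, c, hc, rfl⟩, ?_⟩
      push_cast
      rw [hFA a ha, hFB c hc]; ring
    · rintro ⟨_, ⟨a, ha, c, hc, rfl⟩, rfl⟩
      refine ⟨F a - F c, ⟨F a, ⟨a, ha, rfl⟩, F c, ⟨c, hc, rfl⟩, rfl⟩, ?_⟩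
      push_cast
      rw [hFA a ha, hFB c hc]; ring
  have cmul : (A.image F * B.image F).card = (A * B).card := by
    rw [← Finset.card_image_of_injective _ hcast,
      ← Finset.card_image_of_injective (A * B) (f := fun x => (((b : ℤ) : ℚ) * ((b : ℤ) : ℚ)) * x)
        (fun x y h => mul_left_cancel₀ (mul_ne_zero hb0 hb0) h)]
    congr 1
    ext x
    simp only [Finset.mem_image, Finset.mem_mul]
    constructor
    · rintro ⟨_, ⟨_, ⟨a, ha, rfl⟩, _, ⟨c, hc, rfl⟩, rfl⟩, rfl⟩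
      refine ⟨a * c, ⟨a, ha, c, hc, rfl⟩, ?_⟩
      push_cast
      rw [hFA a ha, hFB c hc]; ring
    · rintro ⟨_, ⟨a, ha, c, hc, rfl⟩, rfl⟩
      refine ⟨F a * F c, ⟨F a, ⟨a, ha, rfl⟩, F c, ⟨c, hc, rfl⟩, rfl⟩, ?_⟩
      push_cast
      rw [hFA a ha, hFB c hc]; ring
  have h := fin6_ne (A.image F) (B.image F) (z A hA hFA) (z B hB hFB)
  rw [inj A hFA, inj B hFB, csum, cdiff, cmul] at h
  exact h

end Pool.Agent.TH887.SP
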