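import Pool.Agent.TH887.SP.Cross

/-!
The improved fourth moment inequality
`‖g + f‖₄⁴ ≤ a² + 5.4 a b + 2.5 b²`, `a = ‖g‖₄²`, `b = ‖f‖₄²`.
-/

set_option autoImplicit false

namespace Pool.Agent.TH887.SP

open Finset H633R4.SP

theorem cubic_ineq {b x y : ℝ} (hb : 0 ≤ b) (hx : 0 ≤ x) (hy : 0 ≤ y) (hyx : y ≤ x)
    (hD : x ^ 2 + 1 / 2 * y ^ 2 ≤ b ^ 2) :
    8 * x * (32 / 100 * y ^ 2 + 156 / 100 * (b ^ 2 - x ^ 2 - 1 / 2 * y ^ 2)) ≤
      3 * b ^ 2 * (54 / 10 * b - 4 * x - 2 * y) := by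
  rcases le_total x (9 / 10 * b) with h | h
  · have h1 : 0 ≤ (x - y) * (6 * b ^ 2 - 368 / 100 * x * (x + y)) := by
      apply mul_nonneg (by linarith)
      have : x * (x + y) ≤ 2 * (81 / 100) * b ^ 2 := by nlinarith
      nlinarith
    have h2 : 0 ≤ (x - 79 / 100 * b) ^ 2 * (x + 158 / 100 * b) := by positivity
    have h3 : 0 ≤ b ^ 2 * (9 / 10 * b - x) := mul_nonneg (sq_nonneg b) (by linarith)
    have h4 : 0 ≤ b ^ 3 := by positivity
    nlinarith
  · have hxb : x ≤ b := by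
      apply le_of_sq_le_sq _ hb
      nlinarith [sq_nonneg y]
    -- y ≤ y² / (1.2 b) + 0.3 b
    have h1 : 0 ≤ b * (5 * y ^ 2 - 6 * b * y + 18 / 10 * b ^ 2) := by
      apply mul_nonneg hb
      nlinarith [sq_nonneg (y - 6 / 10 * b)]
    have h2 : 0 ≤ (5 * b - 368 / 100 * x) * (2 * b ^ 2 - 2 * x ^ 2 - y ^ 2) :=
      mul_nonneg (by linarith) (by linarith)
    have h3 : 0 ≤ 44 / 10 * b ^ 3 - 1712 / 100 * x * b ^ 2 + 10 * x ^ 2 * b + 512 / 100 * x ^ 3 := by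
      obtain ⟨δ, hδ⟩ : ∃ δ, δ = x - 9 / 10 * b := ⟨_, rfl⟩
      have hδ0 : 0 ≤ δ := by linarith
      have : x = 9 / 10 * b + δ := by linarith
      rw [this]
      have e : 44 / 10 * b ^ 3 - 1712 / 100 * (9 / 10 * b + δ) * b ^ 2 +
          10 * (9 / 10 * b + δ) ^ 2 * b + 512 / 100 * (9 / 10 * b + δ) ^ 3 =
          (44 / 10 - 1712 / 100 * (9 / 10) + 10 * (81 / 100) + 512 / 100 * (729 / 1000)) * b ^ 3 +
          (18 + 512 / 100 * 3 * (81 / 100) - 1712 / 100) * b ^ 2 * δ +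
          (10 + 512 / 100 * 3 * (9 / 10)) * b * δ ^ 2 + 512 / 100 * δ ^ 3 := by ring
      rw [e]
      have := mul_nonneg (sq_nonneg b) hδ0
      have := mul_nonneg hb (sq_nonneg δ)
      have := pow_nonneg hb 3
      have := pow_nonneg hδ0 3
      nlinarith
    nlinarith

theorem real_ineq {a b x y U V W : ℝ} (ha : 0 ≤ a) (hb : 0 ≤ b) (hx : 0 ≤ x) (hy : 0 ≤ y)
    (hyx : y ≤ x) (hD : x ^ 2 + 1 / 2 * y ^ 2 ≤ b ^ 2) (hU : U ≤ a * x)
    (hV : V ≤ a * y)
    (hW : W ^ 2 ≤ U * (32 / 100 * y ^ 2 + 156 / 100 * (b ^ 2 - x ^ 2 - 1 / 2 * y ^ 2))) :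
    4 * U + 2 * V + 4 * W ≤ 54 / 10 * (a * b) + 3 / 2 * b ^ 2 := by
  have hc := cubic_ineq hb hx hy hyx hD
  set q : ℝ := 32 / 100 * y ^ 2 + 156 / 100 * (b ^ 2 - x ^ 2 - 1 / 2 * y ^ 2) with hq
  have hq0 : 0 ≤ q := by
    rw [hq]
    have : 0 ≤ b ^ 2 - x ^ 2 - 1 / 2 * y ^ 2 := by linarith
    positivity
  set c : ℝ := 54 / 10 * b - 4 * x - 2 * y with hcdef
  have hc0 : 0 ≤ c := by
    have h1 : (4 * x + 2 * y) ^ 2 ≤ 24 * b ^ 2 := by nlinarith [sq_nonneg (x - y)]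
    have h2 : (4 * x + 2 * y) ^ 2 ≤ (54 / 10 * b) ^ 2 := by nlinarith [sq_nonneg b]
    have h3 := le_of_sq_le_sq h2 (by positivity)
    rw [hcdef]; linarith
  have hW2 : (4 * W) ^ 2 ≤ (a * c + 3 / 2 * b ^ 2) ^ 2 := by
    have h1 : W ^ 2 ≤ a * x * q := hW.trans (mul_le_mul_of_nonneg_right hU hq0)
    have h2 : a * (8 * x * q) ≤ a * (3 * b ^ 2 * c) := mul_le_mul_of_nonneg_left hc ha
    nlinarith [sq_nonneg (a * c - 3 / 2 * b ^ 2)]
  have h4 : 4 * W ≤ a * c + 3 / 2 * b ^ 2 :=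
    le_of_sq_le_sq hW2 (by positivity)
  have e : a * c = 54 / 10 * (a * b) - 4 * (a * x) - 2 * (a * y) := by
    rw [hcdef]; ring
  linarith

variable {m : ℕ} {T : Finset ℤ} {f g : ℤ → ℝ}

theorem E_zero_of (T : Finset ℤ) (a b c d : ℤ → ℝ)
    (h : ∀ w x y z : ℤ, w + x = y + z → a w ≠ 0 → b x ≠ 0 → c y ≠ 0 → d z ≠ 0 → False) :
    E T a b c d = 0 := by
  apply E_zero
  intro w x y z he
  by_cases ha : a w = 0
  · rw [ha]; ring
  by_cases hb : b x = 0
  · rw [hb]; ring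
  by_cases hc : c y = 0
  · rw [hc]; ring
  by_cases hd : d z = 0
  · rw [hd]; ring
  exact absurd (h w x y z he ha hb hc hd) not_false

/-- expansion of the energy of a sum when `g` lives on the zero class, `f` on nonzero classes -/
theorem N_expand (hg : ∀ n, g n ≠ 0 → (n : ZMod m) = 0) (hk : ∀ n, f n ≠ 0 → (n : ZMod m) ≠ 0) :
    N T (fun n => g n + f n) ^ 2 =
      N T g ^ 2 + 4 * E T g f g f + 2 * E T f f g g + 4 * E T f f f g + N T f ^ 2 := by
  rw [N_sq, N_sq, N_sq, E_add]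
  have z1 : E T f g g g = 0 := by
    apply E_zero_of
    intro w x y z he hw hx hy hz
    have h' := cast_eq (m := m) he
    rw [hg x hx, hg y hy, hg z hz, add_zero, add_zero] at h'
    exact hk w hw h'
  have z2 : E T g f g g = 0 := by rw [E_comm12]; exact z1
  have z3 : E T g g f g = 0 := by rw [E_swap]; exact z1
  have z4 : E T g g g f = 0 := by rw [E_comm34]; exact z3
  have e1 : E T g g f f = E T f f g g := E_swap _ _ _ _ _
  have e2 : E T f g f g = E T g f g f := by rw [E_comm12, E_comm34]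
  have e3 : E T f g g f = E T g f g f := by rw [E_comm12]
  have e4 : E T g f f g = E T g f g f := by rw [E_comm34]
  have e5 : E T f f g f = E T f f f g := E_comm34 _ _ _ _ _
  have e6 : E T f g f f = E T f f f g := by rw [E_swap, E_comm34]
  have e7 : E T g f f f = E T f f f g := by rw [E_comm12]; exact e6
  rw [z1, z2, z3, z4, e1, e2, e3, e4, e5, e6, e7]
  ring

/-- **The improved inequality**, `2` and `3` invertible. -/
theorem al_big (hf : ∀ n, 0 ≤ f n) (hg : ∀ n, g n ≠ 0 → (n : ZMod m) = 0)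
    (hk : ∀ n, f n ≠ 0 → (n : ZMod m) ≠ 0)
    (h2 : ∀ x : ZMod m, 2 * x = 0 → x = 0) (h3 : ∀ x : ZMod m, 3 * x = 0 → x = 0) :
    N T (fun n => g n + f n) ^ 2 ≤
      N T g ^ 2 + 54 / 10 * (N T g * N T f) + 5 / 2 * N T f ^ 2 := by
  rw [N_expand hg hk]
  have hX := XX_nonneg (T := T) (m := m) hf
  have hY := YY_nonneg (T := T) (m := m) hf
  have hx2 := Real.sq_sqrt hX
  have hy2 := Real.sq_sqrt hY
  have hQ := QQ_le (T := T) hf hk h2 h3
  rw [← E_eq_SW, ← N_sq] at hQ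
  have hU0 : 0 ≤ E T g f g f := E_nonneg' T g f
  have key := real_ineq (a := N T g) (b := N T f) (x := Real.sqrt (XX T f m))
    (y := Real.sqrt (YY T f m)) (U := E T g f g f) (V := E T f f g g) (W := E T f f f g)
    (N_nonneg _ _) (N_nonneg _ _) (Real.sqrt_nonneg _) (Real.sqrt_nonneg _)
    (Real.sqrt_le_sqrt (YY_le_XX hf)) (by
      rw [hx2, hy2, N_sq, E_eq_SW, B_split hk h2, Y_split hk h2]
      have := YR_nonneg (T := T) (m := m) hf
      have := ZZ_nonneg (T := T) (m := m) hf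
      linarith) (by
      apply le_of_sq_le_sq _ (mul_nonneg (N_nonneg _ _) (Real.sqrt_nonneg _))
      rw [mul_pow, hx2, N_sq]
      exact U_bd hg) (by
      apply le_of_sq_le_sq _ (mul_nonneg (N_nonneg _ _) (Real.sqrt_nonneg _))
      rw [mul_pow, hy2, N_sq]
      exact V_bd hg) (by
      rw [hx2, hy2]
      exact (W_bd hg hk).trans (mul_le_mul_of_nonneg_left hQ hU0))
  linarith

/-- the case of one class `r`, `2 r ≠ 0`, `2 r ≠ r` -/
theorem al_one (hg : ∀ n, g n ≠ 0 → (n : ZMod m) = 0) {r : ZMod m}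
    (hk : ∀ n, f n ≠ 0 → (n : ZMod m) = r) (hr : r ≠ 0) (hr2 : 2 * r ≠ 0) :
    N T (fun n => g n + f n) ^ 2 ≤
      N T g ^ 2 + 54 / 10 * (N T g * N T f) + 5 / 2 * N T f ^ 2 := by
  have hk' : ∀ n, f n ≠ 0 → (n : ZMod m) ≠ 0 := fun n hn => by rw [hk n hn]; exact hr
  rw [N_expand hg hk']
  have z1 : E T f f g g = 0 := by
    apply E_zero_of
    intro w x y z he hw hx hy hz
    have h' := cast_eq (m := m) he
    rw [hk w hw, hk x hx, hg y hy, hg z hz] at h'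
    apply hr2
    linear_combination h'
  have z2 : E T f f f g = 0 := by
    apply E_zero_of
    intro w x y z he hw hx hy hz
    have h' := cast_eq (m := m) he
    rw [hk w hw, hk x hx, hk y hy, hg z hz] at h'
    apply hr
    linear_combination h'
  rw [z1, z2]
  have h1 := E_ab T g f
  have h3 := mul_nonneg (N_nonneg T g) (N_nonneg T f)
  have h4 := sq_nonneg (N T f)
  linarith

end Pool.Agent.TH887.SP
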