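import Pool.Agent.TH887.SP.Count

/-!
The residue class decomposition of the fourth moment of a nonnegative function living on
non-multiples of `m`, where `2` and `3` are invertible modulo `m`.
-/

set_option autoImplicit false

namespace Pool.Agent.TH887.SP

open Finset H633R4.SP

open Classical in
/-- indicator -/
noncomputable def ind (p : Prop) : ℝ := if p then 1 else 0

theorem ind_true {p : Prop} (h : p) : ind p = 1 := if_pos h
theorem ind_false {p : Prop} (h : ¬ p) : ind p = 0 := if_neg h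
theorem ind_nonneg (p : Prop) : 0 ≤ ind p := by
  unfold ind; split_ifs <;> norm_num
theorem ind_le_one (p : Prop) : ind p ≤ 1 := by
  unfold ind; split_ifs <;> norm_num
theorem ind_mono {p q : Prop} (h : p → q) : ind p ≤ ind q := by
  by_cases hp : p
  · rw [ind_true hp, ind_true (h hp)]
  · rw [ind_false hp]; exact ind_nonneg q
theorem ind_congr {p q : Prop} (h : p ↔ q) : ind p = ind q := by
  rw [propext h]
theorem ind_and (p q : Prop) : ind (p ∧ q) = ind p * ind q := by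
  by_cases hp : p <;> by_cases hq : q <;> simp [ind, hp, hq]
theorem ind_not (p : Prop) : ind (¬ p) = 1 - ind p := by
  by_cases hp : p <;> simp [ind, hp]

theorem ind3a (p q r : Prop) (h : ¬ (p ∧ q ∧ r)) :
    ind p = ind (p ∧ q) + ind (p ∧ r) + ind (p ∧ ¬ q ∧ ¬ r) := by
  by_cases hp : p
  · by_cases hq : q
    · by_cases hr : r
      · exact absurd ⟨hp, hq, hr⟩ h
      · simp [ind, hp, hq, hr]
    · by_cases hr : r
      · simp [ind, hp, hq, hr]
      · simp [ind, hp, hq, hr]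
  · simp [ind, hp]

theorem ind3b (p q r : Prop) (h : ¬ (p ∧ q ∧ r)) :
    1 = ind q + (ind (p ∧ r) + ind (p ∧ ¬ q ∧ ¬ r)) + ind (¬ q ∧ ¬ p) := by
  by_cases hp : p
  · by_cases hq : q
    · by_cases hr : r
      · exact absurd ⟨hp, hq, hr⟩ h
      · simp [ind, hp, hq, hr]
    · by_cases hr : r
      · simp [ind, hp, hq, hr]
      · simp [ind, hp, hq, hr]
  · by_cases hq : q
    · simp [ind, hp, hq]
    · simp [ind, hp, hq]

variable {m : ℕ} (T : Finset ℤ) (f : ℤ → ℝ)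

/-- differences in the zero class -/
noncomputable def XX (m : ℕ) : ℝ := SW T f (fun a _ c _ => ind ((a : ZMod m) = c))
/-- sums in the zero class -/
noncomputable def YY (m : ℕ) : ℝ := SW T f (fun a b _ _ => ind ((a : ZMod m) + b = 0))
/-- everything else -/
noncomputable def ZZ (m : ℕ) : ℝ :=
  SW T f (fun a b c _ => ind ((a : ZMod m) ≠ c ∧ (a : ZMod m) + b ≠ 0))
/-- the nondegenerate part of `YY` -/
noncomputable def YR (m : ℕ) : ℝ :=
  SW T f (fun a b c d => ind ((a : ZMod m) + b = 0 ∧ (a : ZMod m) ≠ c ∧ (a : ZMod m) ≠ d))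
/-- the degenerate part of `YY` -/
noncomputable def Y0 (m : ℕ) : ℝ :=
  SW T f (fun a b c _ => ind ((a : ZMod m) + b = 0 ∧ (a : ZMod m) = c))

variable {T f}

theorem cast_eq {a b c d : ℤ} (h : a + b = c + d) :
    (a : ZMod m) + b = c + d := by
  rw [← Int.cast_add, ← Int.cast_add, h]

theorem Y_split (hk : ∀ n, f n ≠ 0 → (n : ZMod m) ≠ 0)
    (h2 : ∀ x : ZMod m, 2 * x = 0 → x = 0) : YY T f m = 2 * Y0 T f m + YR T f m := by
  have e1 : Y0 T f m = SW T f (fun a b _ d => ind ((a : ZMod m) + b = 0 ∧ (a : ZMod m) = d)) := by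
    unfold Y0
    rw [← SW_swap]
  have : YY T f m = SW T f (fun a b c _ => ind ((a : ZMod m) + b = 0 ∧ (a : ZMod m) = c)) +
      SW T f (fun a b _ d => ind ((a : ZMod m) + b = 0 ∧ (a : ZMod m) = d)) + YR T f m := by
    unfold YY YR
    rw [← SW_add, ← SW_add]
    apply SW_congr
    intro a b c d h ha hb hc hd
    have h' := cast_eq (m := m) h
    have hne : ¬ ((a : ZMod m) + b = 0 ∧ (a : ZMod m) = c ∧ (a : ZMod m) = d) := by
      rintro ⟨h0, hc', hd'⟩
      apply hk a ha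
      apply h2
      rw [← hc', ← hd', h0] at h'
      rw [two_mul]; exact h'.symm
    exact ind3a _ _ _ hne
  rw [this, ← e1]
  unfold Y0
  ring

theorem B_split (hk : ∀ n, f n ≠ 0 → (n : ZMod m) ≠ 0)
    (h2 : ∀ x : ZMod m, 2 * x = 0 → x = 0) :
    SW T f (fun _ _ _ _ => 1) = XX T f m + (Y0 T f m + YR T f m) + ZZ T f m := by
  have e1 : Y0 T f m = SW T f (fun a b _ d => ind ((a : ZMod m) + b = 0 ∧ (a : ZMod m) = d)) := by
    unfold Y0
    rw [← SW_swap]
  rw [e1]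
  unfold XX YR ZZ
  rw [← SW_add, ← SW_add, ← SW_add]
  apply SW_congr
  intro a b c d h ha hb hc hd
  have h' := cast_eq (m := m) h
  have hne : ¬ ((a : ZMod m) + b = 0 ∧ (a : ZMod m) = c ∧ (a : ZMod m) = d) := by
    rintro ⟨h0, hc', hd'⟩
    apply hk a ha
    apply h2
    rw [← hc', ← hd', h0] at h'
    rw [two_mul]; exact h'.symm
  exact ind3b _ _ _ hne

/-- pairs of classes -/
theorem YR_le_ZZ (hf : ∀ n, 0 ≤ f n) : YR T f m ≤ ZZ T f m := by
  classical
  have hZ : 0 ≤ ZZ T f m := SW_nonneg hf fun _ _ _ _ => ind_nonneg _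
  apply le_of_sq_le_sq _ hZ
  -- Cauchy-Schwarz
  set u : ℤ × ℤ → ℝ := fun p => ind ((p.1 : ZMod m) ≠ p.2 ∧ (p.1 : ZMod m) + p.2 ≠ 0) *
    (f p.1 * f p.2) with hu
  have key := csl' (T ×ˢ T) (T ×ˢ T) (fun p : ℤ × ℤ => (p.1 - p.2, (p.1 : ZMod m)))
    (fun q : ℤ × ℤ => (q.1 - q.2, -(q.2 : ZMod m))) u u
  have e1 : YR T f m = ∑ p ∈ T ×ˢ T, ∑ q ∈ T ×ˢ T,
      if ((p.1 - p.2, (p.1 : ZMod m)) : ℤ × ZMod m) = (q.1 - q.2, -(q.2 : ZMod m)) then
        u p * u q else 0 := by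
    unfold YR
    rw [SW_diff]
    refine Finset.sum_congr rfl fun p _ => Finset.sum_congr rfl fun q _ => ?_
    by_cases h : p.1 - p.2 = q.1 - q.2
    · rw [if_pos h]
      have h' : (p.1 : ZMod m) - p.2 = q.1 - q.2 := by
        rw [← Int.cast_sub, ← Int.cast_sub, h]
      by_cases h0 : (p.1 : ZMod m) + q.2 = 0
      · have h0' : (p.1 : ZMod m) = -(q.2 : ZMod m) := eq_neg_of_add_eq_zero_left h0
        rw [if_pos (Prod.ext_iff.2 ⟨h, h0'⟩)]
        have h1 : (p.2 : ZMod m) = -(q.1 : ZMod m) := by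
          have : (p.2 : ZMod m) = p.1 - (q.1 - q.2) := by rw [← h']; ring
          rw [this, h0']; ring
        have i1 : ind ((p.1 : ZMod m) + q.2 = 0 ∧ (p.1 : ZMod m) ≠ p.2 ∧ (p.1 : ZMod m) ≠ q.1) =
            ind ((p.1 : ZMod m) ≠ p.2 ∧ (p.1 : ZMod m) + p.2 ≠ 0) := by
          apply ind_congr
          constructor
          · rintro ⟨_, h3, h4⟩
            refine ⟨h3, fun h5 => h4 ?_⟩
            rw [h1] at h5
            exact add_neg_eq_zero.1 h5
          · rintro ⟨h3, h4⟩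
            refine ⟨h0, h3, fun h5 => h4 ?_⟩
            rw [h1, h5]; ring
        have i2 : ind ((q.1 : ZMod m) ≠ q.2 ∧ (q.1 : ZMod m) + q.2 ≠ 0) =
            ind ((p.1 : ZMod m) ≠ p.2 ∧ (p.1 : ZMod m) + p.2 ≠ 0) := by
          apply ind_congr
          rw [h0', h1]
          constructor
          · rintro ⟨h3, h4⟩
            refine ⟨fun h5 => h3 (neg_injective h5).symm, fun h5 => h4 ?_⟩
            have : (q.1 : ZMod m) + q.2 = -(-(q.2 : ZMod m) + -q.1) := by ring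
            rw [this, h5, neg_zero]
          · rintro ⟨h3, h4⟩
            refine ⟨fun h5 => h3 (by rw [h5]), fun h5 => h4 ?_⟩
            have : -(q.2 : ZMod m) + -q.1 = -((q.1 : ZMod m) + q.2) := by ring
            rw [this, h5, neg_zero]
        rw [hu]
        simp only
        rw [i1, i2]
        by_cases hi : ((p.1 : ZMod m) ≠ p.2 ∧ (p.1 : ZMod m) + p.2 ≠ 0)
        · rw [ind_true hi]; ring
        · rw [ind_false hi]; ring
      · rw [if_neg (fun h3 => h0 (by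
            have h4 : (p.1 : ZMod m) = -(q.2 : ZMod m) := (Prod.ext_iff.1 h3).2
            rw [h4]; ring))]
        rw [ind_false (fun h3 => h0 h3.1)]
        ring
    · rw [if_neg h, if_neg (fun h3 => h (Prod.ext_iff.1 h3).1)]
  rw [← e1] at key
  have b1 : (∑ p ∈ T ×ˢ T, ∑ p' ∈ T ×ˢ T,
      if ((p.1 - p.2, (p.1 : ZMod m)) : ℤ × ZMod m) = (p'.1 - p'.2, (p'.1 : ZMod m)) then
        u p * u p' else 0) ≤ ZZ T f m := by
    unfold ZZ
    rw [SW_diff]
    refine Finset.sum_le_sum fun p _ => Finset.sum_le_sum fun p' _ => ?_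
    have hn : 0 ≤ f p.1 * f p.2 * (f p'.1 * f p'.2) :=
      mul_nonneg (mul_nonneg (hf _) (hf _)) (mul_nonneg (hf _) (hf _))
    by_cases h : p.1 - p.2 = p'.1 - p'.2
    · rw [if_pos h]
      have h' : (p.1 : ZMod m) - p.2 = p'.1 - p'.2 := by
        rw [← Int.cast_sub, ← Int.cast_sub, h]
      by_cases h0 : (p.1 : ZMod m) = p'.1
      · rw [if_pos (Prod.ext_iff.2 ⟨h, h0⟩)]
        have h1 : (p.2 : ZMod m) = p'.2 := by
          rw [h0] at h'
          exact sub_right_injective h'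
        have i2 : ind ((p'.1 : ZMod m) ≠ p'.2 ∧ (p'.1 : ZMod m) + p'.2 ≠ 0) =
            ind ((p.1 : ZMod m) ≠ p.2 ∧ (p.1 : ZMod m) + p.2 ≠ 0) := by
          rw [h0, h1]
        have i3 : ind ((p.1 : ZMod m) ≠ p.2 ∧ (p.1 : ZMod m) + p'.2 ≠ 0) =
            ind ((p.1 : ZMod m) ≠ p.2 ∧ (p.1 : ZMod m) + p.2 ≠ 0) := by
          rw [h1]
        rw [hu]
        simp only
        rw [i2, i3]
        by_cases hi : ((p.1 : ZMod m) ≠ p.2 ∧ (p.1 : ZMod m) + p.2 ≠ 0)
        · rw [ind_true hi]; nlinarith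
        · rw [ind_false hi]; simp
      · rw [if_neg (fun h3 => h0 (Prod.ext_iff.1 h3).2)]
        exact mul_nonneg (ind_nonneg _) hn
    · rw [if_neg h, if_neg (fun h3 => h (Prod.ext_iff.1 h3).1)]
  have b2 : (∑ q ∈ T ×ˢ T, ∑ q' ∈ T ×ˢ T,
      if ((q.1 - q.2, -(q.2 : ZMod m)) : ℤ × ZMod m) = (q'.1 - q'.2, -(q'.2 : ZMod m)) then
        u q * u q' else 0) ≤ ZZ T f m := by
    unfold ZZ
    rw [SW_diff]
    refine Finset.sum_le_sum fun p _ => Finset.sum_le_sum fun p' _ => ?_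
    have hn : 0 ≤ f p.1 * f p.2 * (f p'.1 * f p'.2) :=
      mul_nonneg (mul_nonneg (hf _) (hf _)) (mul_nonneg (hf _) (hf _))
    by_cases h : p.1 - p.2 = p'.1 - p'.2
    · rw [if_pos h]
      have h' : (p.1 : ZMod m) - p.2 = p'.1 - p'.2 := by
        rw [← Int.cast_sub, ← Int.cast_sub, h]
      by_cases h0 : -(p.2 : ZMod m) = -p'.2
      · rw [if_pos (Prod.ext_iff.2 ⟨h, h0⟩)]
        have h1 : (p.2 : ZMod m) = p'.2 := neg_injective h0
        have h1' : (p.1 : ZMod m) = p'.1 := by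
          rw [h1] at h'
          exact sub_left_injective h'
        have i2 : ind ((p'.1 : ZMod m) ≠ p'.2 ∧ (p'.1 : ZMod m) + p'.2 ≠ 0) =
            ind ((p.1 : ZMod m) ≠ p.2 ∧ (p.1 : ZMod m) + p.2 ≠ 0) := by
          rw [h1', h1]
        have i3 : ind ((p.1 : ZMod m) ≠ p.2 ∧ (p.1 : ZMod m) + p'.2 ≠ 0) =
            ind ((p.1 : ZMod m) ≠ p.2 ∧ (p.1 : ZMod m) + p.2 ≠ 0) := by
          rw [h1]
        rw [hu]
        simp only
        rw [i2, i3]
        by_cases hi : ((p.1 : ZMod m) ≠ p.2 ∧ (p.1 : ZMod m) + p.2 ≠ 0)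
        · rw [ind_true hi]; nlinarith
        · rw [ind_false hi]; simp
      · rw [if_neg (fun h3 => h0 (Prod.ext_iff.1 h3).2)]
        exact mul_nonneg (ind_nonneg _) hn
    · rw [if_neg h, if_neg (fun h3 => h (Prod.ext_iff.1 h3).1)]
  calc YR T f m ^ 2 ≤ _ := key
    _ ≤ ZZ T f m * ZZ T f m := by
        apply mul_le_mul b1 b2 _ hZ
        rw [lab' (T ×ˢ T) (T ×ˢ T) (fun q : ℤ × ℤ => (q.1 - q.2, -(q.2 : ZMod m)))
          (fun q : ℤ × ℤ => (q.1 - q.2, -(q.2 : ZMod m))) u u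
          ((T ×ˢ T).image (fun q : ℤ × ℤ => (q.1 - q.2, -(q.2 : ZMod m))))
          (fun p hp => Finset.mem_image_of_mem _ hp)]
        exact Finset.sum_nonneg fun s _ => mul_self_nonneg _
    _ = ZZ T f m ^ 2 := by ring

end Pool.Agent.TH887.SP
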