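import Pool.Agent.TH887.SP.Classes

/-!
Bounds for the auxiliary counts.
-/

set_option autoImplicit false

namespace Pool.Agent.TH887.SP

open Finset H633R4.SP

variable {m : ℕ} {T : Finset ℤ} {f : ℤ → ℝ}

theorem YY_nonneg (hf : ∀ n, 0 ≤ f n) : 0 ≤ YY T f m := SW_nonneg hf fun _ _ _ _ => ind_nonneg _
theorem XX_nonneg (hf : ∀ n, 0 ≤ f n) : 0 ≤ XX T f m := SW_nonneg hf fun _ _ _ _ => ind_nonneg _
theorem ZZ_nonneg (hf : ∀ n, 0 ≤ f n) : 0 ≤ ZZ T f m := SW_nonneg hf fun _ _ _ _ => ind_nonneg _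
theorem YR_nonneg (hf : ∀ n, 0 ≤ f n) : 0 ≤ YR T f m := SW_nonneg hf fun _ _ _ _ => ind_nonneg _
theorem Y0_nonneg (hf : ∀ n, 0 ≤ f n) : 0 ≤ Y0 T f m := SW_nonneg hf fun _ _ _ _ => ind_nonneg _

theorem YY_le_XX (hf : ∀ n, 0 ≤ f n) : YY T f m ≤ XX T f m := by
  classical
  have hX : 0 ≤ XX T f m := XX_nonneg hf
  apply le_of_sq_le_sq _ hX
  set u : ℤ × ℤ → ℝ := fun p => (f p.1 * f p.2) with hu
  have key := csl' (T ×ˢ T) (T ×ˢ T) (fun p : ℤ × ℤ => (p.1 - p.2, (p.1 : ZMod m)))
    (fun q : ℤ × ℤ => (q.1 - q.2, -(q.2 : ZMod m))) u u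
  have e1 : YY T f m = ∑ p ∈ T ×ˢ T, ∑ q ∈ T ×ˢ T,
      if ((p.1 - p.2, (p.1 : ZMod m)) : ℤ × ZMod m) = (q.1 - q.2, -(q.2 : ZMod m)) then
        u p * u q else 0 := by
    unfold YY
    rw [SW_diff]
    refine Finset.sum_congr rfl fun p _ => Finset.sum_congr rfl fun q _ => ?_
    by_cases h : p.1 - p.2 = q.1 - q.2
    · rw [if_pos h]
      by_cases h0 : (p.1 : ZMod m) + q.2 = 0
      · have h0' : (p.1 : ZMod m) = -(q.2 : ZMod m) := eq_neg_of_add_eq_zero_left h0
        rw [if_pos (Prod.ext_iff.2 ⟨h, h0'⟩), ind_true h0, one_mul]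
      · rw [if_neg (fun h3 => h0 (by
            have h4 : (p.1 : ZMod m) = -(q.2 : ZMod m) := (Prod.ext_iff.1 h3).2
            rw [h4]; ring))]
        rw [ind_false h0]
        ring
    · rw [if_neg h, if_neg (fun h3 => h (Prod.ext_iff.1 h3).1)]
  rw [← e1] at key
  have eX : XX T f m = SW T f (fun a _ _ d => ind ((a : ZMod m) = d)) := by
    unfold XX
    rw [← SW_swap]
  have b1 : (∑ p ∈ T ×ˢ T, ∑ p' ∈ T ×ˢ T,
      if ((p.1 - p.2, (p.1 : ZMod m)) : ℤ × ZMod m) = (p'.1 - p'.2, (p'.1 : ZMod m)) then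
        u p * u p' else 0) = XX T f m := by
    rw [eX, SW_diff]
    refine Finset.sum_congr rfl fun p _ => Finset.sum_congr rfl fun p' _ => ?_
    by_cases h : p.1 - p.2 = p'.1 - p'.2
    · rw [if_pos h]
      by_cases h0 : (p.1 : ZMod m) = p'.1
      · rw [if_pos (Prod.ext_iff.2 ⟨h, h0⟩), ind_true h0, one_mul]
      · rw [if_neg (fun h3 => h0 (Prod.ext_iff.1 h3).2), ind_false h0, zero_mul]
    · rw [if_neg h, if_neg (fun h3 => h (Prod.ext_iff.1 h3).1)]
  have b2 : (∑ q ∈ T ×ˢ T, ∑ q' ∈ T ×ˢ T,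
      if ((q.1 - q.2, -(q.2 : ZMod m)) : ℤ × ZMod m) = (q'.1 - q'.2, -(q'.2 : ZMod m)) then
        u q * u q' else 0) = XX T f m := by
    rw [eX, SW_diff]
    refine Finset.sum_congr rfl fun p _ => Finset.sum_congr rfl fun p' _ => ?_
    by_cases h : p.1 - p.2 = p'.1 - p'.2
    · rw [if_pos h]
      have h' : (p.1 : ZMod m) - p.2 = p'.1 - p'.2 := by
        rw [← Int.cast_sub, ← Int.cast_sub, h]
      by_cases h0 : -(p.2 : ZMod m) = -p'.2
      · have h1 : (p.2 : ZMod m) = p'.2 := neg_injective h0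
        have h1' : (p.1 : ZMod m) = p'.1 := by
          rw [h1] at h'
          exact sub_left_injective h'
        rw [if_pos (Prod.ext_iff.2 ⟨h, h0⟩), ind_true h1', one_mul]
      · rw [if_neg (fun h3 => h0 (Prod.ext_iff.1 h3).2), ind_false, zero_mul]
        intro h1
        apply h0
        rw [h1] at h'
        rw [sub_right_injective h']
    · rw [if_neg h, if_neg (fun h3 => h (Prod.ext_iff.1 h3).1)]
  rw [b1, b2] at key
  calc YY T f m ^ 2 ≤ _ := key
    _ = XX T f m ^ 2 := by ring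

/-- the part `a = 2 c` -/
theorem KD_le (hf : ∀ n, 0 ≤ f n) (hk : ∀ n, f n ≠ 0 → (n : ZMod m) ≠ 0)
    (h2 : ∀ x : ZMod m, 2 * x = 0 → x = 0) (h3 : ∀ x : ZMod m, 3 * x = 0 → x = 0) :
    SW T f (fun a _ c _ => ind ((a : ZMod m) = 2 * c)) ≤ 1 / 2 * YR T f m + ZZ T f m := by
  set K1 := SW T f (fun a b c _ => ind ((a : ZMod m) = 2 * c ∧ (a : ZMod m) + b = 0)) with hK1
  have e1 : K1 = SW T f (fun a b _ d => ind ((a : ZMod m) = 2 * d ∧ (a : ZMod m) + b = 0)) := by
    rw [hK1, ← SW_swap]
  have b1 : K1 + K1 ≤ YR T f m := by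
    nth_rewrite 2 [e1]
    rw [hK1, ← SW_add]
    apply SW_mono hf
    intro a b c d h ha hb hc hd
    have h' := cast_eq (m := m) h
    by_cases h0 : (a : ZMod m) + b = 0
    · have hcd : (c : ZMod m) + d = 0 := by rw [← h', h0]
      have hc0 := hk c hc
      have hd0 := hk d hd
      by_cases hc' : (a : ZMod m) = 2 * c
      · have n1 : ¬ (a : ZMod m) = 2 * d := by
          intro h4
          apply hc0
          apply h2; apply h2
          linear_combination (2 : ZMod m) * hcd + hc' * (-1) + h4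
        have n2 : (a : ZMod m) ≠ c := by
          intro h4
          apply hc0
          linear_combination h4 - hc'
        have n3 : (a : ZMod m) ≠ d := by
          intro h4
          apply hc0
          apply h3
          linear_combination hcd + h4 - hc'
        rw [ind_true ⟨hc', h0⟩, ind_false (fun h5 => n1 h5.1), ind_true ⟨h0, n2, n3⟩]
        norm_num
      · by_cases hd' : (a : ZMod m) = 2 * d
        · have n2 : (a : ZMod m) ≠ d := by
            intro h4
            apply hd0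
            linear_combination h4 - hd'
          have n3 : (a : ZMod m) ≠ c := by
            intro h4
            apply hd0
            apply h3
            linear_combination hcd + h4 - hd'
          rw [ind_false (fun h5 => hc' h5.1), ind_true ⟨hd', h0⟩, ind_true ⟨h0, n3, n2⟩]
          norm_num
        · rw [ind_false (fun h5 => hc' h5.1), ind_false (fun h5 => hd' h5.1)]
          have := ind_nonneg ((a : ZMod m) + b = 0 ∧ (a : ZMod m) ≠ c ∧ (a : ZMod m) ≠ d)
          linarith
    · rw [ind_false (fun h5 => h0 h5.2), ind_false (fun h5 => h0 h5.2)]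
      have := ind_nonneg ((a : ZMod m) + b = 0 ∧ (a : ZMod m) ≠ c ∧ (a : ZMod m) ≠ d)
      linarith
  have b2 : SW T f (fun a _ c _ => ind ((a : ZMod m) = 2 * c)) ≤ K1 + ZZ T f m := by
    unfold ZZ
    rw [hK1, ← SW_add]
    apply SW_mono hf
    intro a b c d h ha hb hc hd
    have hc0 := hk c hc
    by_cases hc' : (a : ZMod m) = 2 * c
    · have n2 : (a : ZMod m) ≠ c := by
        intro h4
        apply hc0
        linear_combination h4 - hc'
      by_cases h0 : (a : ZMod m) + b = 0
      · rw [ind_true hc', ind_true ⟨hc', h0⟩]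
        have := ind_nonneg ((a : ZMod m) ≠ c ∧ (a : ZMod m) + b ≠ 0)
        linarith
      · rw [ind_true hc', ind_true (p := (a : ZMod m) ≠ c ∧ (a : ZMod m) + b ≠ 0) ⟨n2, h0⟩]
        have := ind_nonneg ((a : ZMod m) = 2 * c ∧ (a : ZMod m) + b = 0)
        linarith
    · rw [ind_false hc']
      have h5 := ind_nonneg ((a : ZMod m) ≠ c ∧ (a : ZMod m) + b ≠ 0)
      have h6 := ind_nonneg ((a : ZMod m) = 2 * c ∧ (a : ZMod m) + b = 0)
      linarith
  linarith

/-- the part `d = 2 b` -/
theorem KD_le' (hf : ∀ n, 0 ≤ f n) (hk : ∀ n, f n ≠ 0 → (n : ZMod m) ≠ 0)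
    (h2 : ∀ x : ZMod m, 2 * x = 0 → x = 0) (h3 : ∀ x : ZMod m, 3 * x = 0 → x = 0) :
    SW T f (fun _ b _ d => ind ((d : ZMod m) = 2 * b)) ≤ 1 / 2 * YR T f m + ZZ T f m := by
  set K1 := SW T f (fun a b _ d => ind ((d : ZMod m) = 2 * b ∧ (a : ZMod m) + b = 0)) with hK1
  have e1 : K1 = SW T f (fun a b c _ => ind ((c : ZMod m) = 2 * b ∧ (a : ZMod m) + b = 0)) := by
    rw [hK1, ← SW_swap]
  have b1 : K1 + K1 ≤ YR T f m := by
    nth_rewrite 2 [e1]
    rw [hK1, ← SW_add]
    apply SW_mono hf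
    intro a b c d h ha hb hc hd
    have h' := cast_eq (m := m) h
    by_cases h0 : (a : ZMod m) + b = 0
    · have hcd : (c : ZMod m) + d = 0 := by rw [← h', h0]
      have hb0 := hk b hb
      have ha0 := hk a ha
      by_cases hd' : (d : ZMod m) = 2 * b
      · have n1 : ¬ (c : ZMod m) = 2 * b := by
          intro h4
          apply hb0
          apply h2; apply h2
          linear_combination hcd - hd' - h4
        have n2 : (a : ZMod m) ≠ c := by
          intro h4
          apply ha0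
          linear_combination (-1 : ZMod m) * h4 + 2 * h0 - hcd + hd'
        have n3 : (a : ZMod m) ≠ d := by
          intro h4
          apply hb0
          apply h3
          linear_combination h0 - h4 - hd'
        rw [ind_true ⟨hd', h0⟩, ind_false (fun h5 => n1 h5.1), ind_true ⟨h0, n2, n3⟩]
        norm_num
      · by_cases hc' : (c : ZMod m) = 2 * b
        · have n2 : (a : ZMod m) ≠ d := by
            intro h4
            apply ha0
            linear_combination (-1 : ZMod m) * h4 + 2 * h0 - hcd + hc'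
          have n3 : (a : ZMod m) ≠ c := by
            intro h4
            apply hb0
            apply h3
            linear_combination h0 - h4 - hc'
          rw [ind_false (fun h5 => hd' h5.1), ind_true ⟨hc', h0⟩, ind_true ⟨h0, n3, n2⟩]
          norm_num
        · rw [ind_false (fun h5 => hd' h5.1), ind_false (fun h5 => hc' h5.1)]
          have := ind_nonneg ((a : ZMod m) + b = 0 ∧ (a : ZMod m) ≠ c ∧ (a : ZMod m) ≠ d)
          linarith
    · rw [ind_false (fun h5 => h0 h5.2), ind_false (fun h5 => h0 h5.2)]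
      have := ind_nonneg ((a : ZMod m) + b = 0 ∧ (a : ZMod m) ≠ c ∧ (a : ZMod m) ≠ d)
      linarith
  have b2 : SW T f (fun _ b _ d => ind ((d : ZMod m) = 2 * b)) ≤ K1 + ZZ T f m := by
    unfold ZZ
    rw [hK1, ← SW_add]
    apply SW_mono hf
    intro a b c d h ha hb hc hd
    have h' := cast_eq (m := m) h
    have hb0 := hk b hb
    by_cases hd' : (d : ZMod m) = 2 * b
    · have n2 : (a : ZMod m) ≠ c := by
        intro h4
        apply hb0
        linear_combination h4 - h' - hd'
      by_cases h0 : (a : ZMod m) + b = 0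
      · rw [ind_true hd', ind_true ⟨hd', h0⟩]
        have := ind_nonneg ((a : ZMod m) ≠ c ∧ (a : ZMod m) + b ≠ 0)
        linarith
      · rw [ind_true hd', ind_true (p := (a : ZMod m) ≠ c ∧ (a : ZMod m) + b ≠ 0) ⟨n2, h0⟩]
        have := ind_nonneg ((d : ZMod m) = 2 * b ∧ (a : ZMod m) + b = 0)
        linarith
    · rw [ind_false hd']
      have h5 := ind_nonneg ((a : ZMod m) ≠ c ∧ (a : ZMod m) + b ≠ 0)
      have h6 := ind_nonneg ((d : ZMod m) = 2 * b ∧ (a : ZMod m) + b = 0)
      linarith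
  linarith

theorem KK_le (hf : ∀ n, 0 ≤ f n) (hk : ∀ n, f n ≠ 0 → (n : ZMod m) ≠ 0)
    (h3 : ∀ x : ZMod m, 3 * x = 0 → x = 0) :
    SW T f (fun a b c d => ind ((a : ZMod m) = 2 * c ∧ (d : ZMod m) = 2 * b)) ≤ ZZ T f m := by
  unfold ZZ
  apply SW_mono hf
  intro a b c d h ha hb hc hd
  have h' := cast_eq (m := m) h
  apply ind_mono
  rintro ⟨h4, h5⟩
  have hc0 := hk c hc
  refine ⟨fun h6 => hc0 ?_, fun h6 => hc0 ?_⟩
  · linear_combination h6 - h4
  · apply h3
    have hcb : (c : ZMod m) = b := by linear_combination h' - h4 + h5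
    linear_combination h6 - h4 + hcb

theorem SS_eq (h2 : ∀ x : ZMod m, 2 * x = 0 → x = 0) :
    SW T f (fun a b c d => ind ((a : ZMod m) + c = 0 ∧ (d : ZMod m) + b = 0)) = Y0 T f m := by
  have e1 : Y0 T f m = SW T f (fun a b _ d => ind ((a : ZMod m) + b = 0 ∧ (a : ZMod m) = d)) := by
    unfold Y0
    rw [← SW_swap]
  rw [e1]
  apply SW_congr
  intro a b c d h ha hb hc hd
  have h' := cast_eq (m := m) h
  apply ind_congr
  constructor
  · rintro ⟨h4, h5⟩
    have h6 : (a : ZMod m) = d := by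
      apply sub_eq_zero.1
      apply h2
      linear_combination h' + h4 - h5
    exact ⟨by rw [h6]; exact h5, h6⟩
  · rintro ⟨h4, h5⟩
    have h6 : (b : ZMod m) = c := by linear_combination h' - h5
    exact ⟨by rw [← h6]; exact h4, by rw [← h5]; exact h4⟩

/-- the multiplier -/
noncomputable def ph (m : ℕ) (a c : ℤ) : ℝ :=
  ind ((a : ZMod m) ≠ c) - 1 / 5 * ind ((a : ZMod m) + c = 0) + 1 / 5 * ind ((a : ZMod m) = 2 * c)

theorem QQ_le (hf : ∀ n, 0 ≤ f n) (hk : ∀ n, f n ≠ 0 → (n : ZMod m) ≠ 0)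
    (h2 : ∀ x : ZMod m, 2 * x = 0 → x = 0) (h3 : ∀ x : ZMod m, 3 * x = 0 → x = 0) :
    SW T f (fun a b c d => ph m a c * ph m d b) ≤
      32 / 100 * YY T f m + 156 / 100 *
        (SW T f (fun _ _ _ _ => 1) - XX T f m - 1 / 2 * YY T f m) := by
  have hB := B_split (T := T) hk h2
  have hY := Y_split (T := T) hk h2
  have hKD := KD_le (T := T) hf hk h2 h3
  have hKD' := KD_le' (T := T) hf hk h2 h3
  have hKK := KK_le (T := T) hf hk h3
  have hSS := SS_eq (T := T) (f := f) h2
  have hYR := YR_le_ZZ (T := T) (m := m) hf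
  have hZ := ZZ_nonneg (T := T) (m := m) hf
  have hpt : SW T f (fun a b c d => ph m a c * ph m d b) ≤
      SW T f (fun a _ c _ => ind ((a : ZMod m) ≠ c)) +
      (-(36 / 100)) * SW T f (fun a b c d => ind ((a : ZMod m) + c = 0 ∧ (d : ZMod m) + b = 0)) +
      1 / 5 * SW T f (fun a _ c _ => ind ((a : ZMod m) = 2 * c)) +
      1 / 5 * SW T f (fun _ b _ d => ind ((d : ZMod m) = 2 * b)) +
      1 / 25 * SW T f (fun a b c d => ind ((a : ZMod m) = 2 * c ∧ (d : ZMod m) = 2 * b)) := by
    rw [← SW_smul, ← SW_smul, ← SW_smul, ← SW_smul, ← SW_add, ← SW_add, ← SW_add, ← SW_add]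
    apply SW_mono hf
    intro a b c d h ha hb hc hd
    have h' := cast_eq (m := m) h
    have hac : ind ((d : ZMod m) ≠ b) = ind ((a : ZMod m) ≠ c) := by
      apply ind_congr
      constructor
      · intro h4 h5
        apply h4
        linear_combination h5 - h'
      · intro h4 h5
        apply h4
        linear_combination h' + h5
    unfold ph
    rw [hac, ind_and, ind_and]
    have s0 := ind_nonneg ((a : ZMod m) + c = 0)
    have s1 := ind_le_one ((a : ZMod m) + c = 0)
    have s0' := ind_nonneg ((d : ZMod m) + b = 0)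
    have s1' := ind_le_one ((d : ZMod m) + b = 0)
    have t0 := ind_nonneg ((a : ZMod m) = 2 * c)
    have t0' := ind_nonneg ((d : ZMod m) = 2 * b)
    by_cases hn : (a : ZMod m) = c
    · -- everything vanishes
      have hdb : (d : ZMod m) = b := by linear_combination hn - h'
      have hc0 := hk c hc
      have hb0 := hk b hb
      rw [ind_false (p := (a : ZMod m) ≠ c) (fun h5 => h5 hn),
        ind_false (p := (a : ZMod m) + c = 0) (fun h5 => hc0 (h2 _ (by rw [hn] at h5; linear_combination h5))),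
        ind_false (p := (d : ZMod m) + b = 0) (fun h5 => hb0 (h2 _ (by rw [hdb] at h5; linear_combination h5))),
        ind_false (p := (a : ZMod m) = 2 * c) (fun h5 => hc0 (by rw [hn] at h5; linear_combination -h5)),
        ind_false (p := (d : ZMod m) = 2 * b) (fun h5 => hb0 (by rw [hdb] at h5; linear_combination -h5))]
      norm_num
    · rw [ind_true (p := (a : ZMod m) ≠ c) hn]
      set s := ind ((a : ZMod m) + c = 0)
      set s' := ind ((d : ZMod m) + b = 0)
      set t := ind ((a : ZMod m) = 2 * c)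
      set t' := ind ((d : ZMod m) = 2 * b)
      have q1 : 2 * (s * s') ≤ s + s' := by nlinarith
      have q2 : 0 ≤ s * t' := mul_nonneg s0 t0'
      have q3 : 0 ≤ s' * t := mul_nonneg s0' t0
      nlinarith
  have hne : SW T f (fun a _ c _ => ind ((a : ZMod m) ≠ c)) =
      SW T f (fun _ _ _ _ => 1) - XX T f m := by
    unfold XX
    have : SW T f (fun _ _ _ _ => 1) = SW T f (fun a _ c _ => ind ((a : ZMod m) ≠ c)) +
        SW T f (fun a _ c _ => ind ((a : ZMod m) = c)) := by
      rw [← SW_add]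
      apply SW_congr
      intro a b c d _ _ _ _ _
      have : ind ((a : ZMod m) ≠ c) = 1 - ind ((a : ZMod m) = c) := ind_not _
      rw [this]; ring
    linarith
  rw [hne, hSS] at hpt
  rw [hB] at *
  rw [hY]
  linarith

end Pool.Agent.TH887.SP
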