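import Pool.Agent.H633R4.SP.Energy

/-!
Weighted counts of additive quadruples and the residue class decomposition modulo `m`,
`m` coprime to `6`.
-/

set_option autoImplicit false

namespace Pool.Agent.TH887.SP

open Finset H633R4.SP

/-- weighted count of additive quadruples `a + b = c + d` -/
noncomputable def SW (T : Finset ℤ) (f : ℤ → ℝ) (ω : ℤ → ℤ → ℤ → ℤ → ℝ) : ℝ :=
  ∑ a ∈ T, ∑ b ∈ T, ∑ c ∈ T, ∑ d ∈ T,
    if a + b = c + d then ω a b c d * (f a * f b * (f c * f d)) else 0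

theorem SW_congr {T : Finset ℤ} {f : ℤ → ℝ} {ω ω' : ℤ → ℤ → ℤ → ℤ → ℝ}
    (h : ∀ a b c d, a + b = c + d → f a ≠ 0 → f b ≠ 0 → f c ≠ 0 → f d ≠ 0 →
      ω a b c d = ω' a b c d) : SW T f ω = SW T f ω' := by
  unfold SW
  refine Finset.sum_congr rfl fun a _ => Finset.sum_congr rfl fun b _ =>
    Finset.sum_congr rfl fun c _ => Finset.sum_congr rfl fun d _ => ?_
  split_ifs with h1
  · by_cases ha : f a = 0
    · rw [ha]; ring
    by_cases hb : f b = 0
    · rw [hb]; ring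
    by_cases hc : f c = 0
    · rw [hc]; ring
    by_cases hd : f d = 0
    · rw [hd]; ring
    rw [h a b c d h1 ha hb hc hd]
  · rfl

theorem SW_mono {T : Finset ℤ} {f : ℤ → ℝ} (hf : ∀ n, 0 ≤ f n) {ω ω' : ℤ → ℤ → ℤ → ℤ → ℝ}
    (h : ∀ a b c d, a + b = c + d → f a ≠ 0 → f b ≠ 0 → f c ≠ 0 → f d ≠ 0 →
      ω a b c d ≤ ω' a b c d) : SW T f ω ≤ SW T f ω' := by
  unfold SW
  refine Finset.sum_le_sum fun a _ => Finset.sum_le_sum fun b _ =>
    Finset.sum_le_sum fun c _ => Finset.sum_le_sum fun d _ => ?_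
  split_ifs with h1
  · by_cases ha : f a = 0
    · rw [ha]; simp
    by_cases hb : f b = 0
    · rw [hb]; simp
    by_cases hc : f c = 0
    · rw [hc]; simp
    by_cases hd : f d = 0
    · rw [hd]; simp
    exact mul_le_mul_of_nonneg_right (h a b c d h1 ha hb hc hd)
      (mul_nonneg (mul_nonneg (hf a) (hf b)) (mul_nonneg (hf c) (hf d)))
  · exact le_rfl

theorem SW_nonneg {T : Finset ℤ} {f : ℤ → ℝ} (hf : ∀ n, 0 ≤ f n) {ω : ℤ → ℤ → ℤ → ℤ → ℝ}
    (h : ∀ a b c d, 0 ≤ ω a b c d) : 0 ≤ SW T f ω := by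
  have h1 := SW_mono (T := T) (f := f) hf (ω := fun _ _ _ _ => 0) (ω' := ω)
    (fun a b c d _ _ _ _ _ => h a b c d)
  have h2 : SW T f (fun _ _ _ _ => 0) = 0 := by
    unfold SW
    refine Finset.sum_eq_zero fun a _ => Finset.sum_eq_zero fun b _ =>
      Finset.sum_eq_zero fun c _ => Finset.sum_eq_zero fun d _ => ?_
    split_ifs <;> simp
  linarith

theorem SW_lin {T : Finset ℤ} {f : ℤ → ℝ} (ω ω' : ℤ → ℤ → ℤ → ℤ → ℝ) (s t : ℝ) :
    SW T f (fun a b c d => s * ω a b c d + t * ω' a b c d) = s * SW T f ω + t * SW T f ω' := by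
  unfold SW
  simp only [Finset.mul_sum, ← Finset.sum_add_distrib]
  refine Finset.sum_congr rfl fun a _ => Finset.sum_congr rfl fun b _ =>
    Finset.sum_congr rfl fun c _ => Finset.sum_congr rfl fun d _ => ?_
  split_ifs <;> ring

theorem SW_add {T : Finset ℤ} {f : ℤ → ℝ} (ω ω' : ℤ → ℤ → ℤ → ℤ → ℝ) :
    SW T f (fun a b c d => ω a b c d + ω' a b c d) = SW T f ω + SW T f ω' := by
  have := SW_lin (T := T) (f := f) ω ω' 1 1
  simpa using this

theorem SW_smul {T : Finset ℤ} {f : ℤ → ℝ} (ω : ℤ → ℤ → ℤ → ℤ → ℝ) (s : ℝ) :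
    SW T f (fun a b c d => s * ω a b c d) = s * SW T f ω := by
  have := SW_lin (T := T) (f := f) ω (fun _ _ _ _ => 0) s 0
  simpa using this

theorem SW_swap {T : Finset ℤ} {f : ℤ → ℝ} (ω : ℤ → ℤ → ℤ → ℤ → ℝ) :
    SW T f (fun a b c d => ω a b d c) = SW T f ω := by
  unfold SW
  refine Finset.sum_congr rfl fun a _ => Finset.sum_congr rfl fun b _ => ?_
  rw [Finset.sum_comm]
  refine Finset.sum_congr rfl fun c _ => Finset.sum_congr rfl fun d _ => ?_
  by_cases h : a + b = c + d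
  · rw [if_pos h, if_pos (by rw [h]; ring)]; ring
  · rw [if_neg h, if_neg (fun h' => h (by rw [h']; ring))]

/-- grouping by labels, arbitrary label type -/
theorem lab' {P Q L' : Type*} [DecidableEq L'] (S : Finset P) (S' : Finset Q) (l : P → L')
    (l' : Q → L') (u : P → ℝ) (v : Q → ℝ) (L : Finset L') (hL : ∀ p ∈ S, l p ∈ L) :
    (∑ p ∈ S, ∑ q ∈ S', if l p = l' q then u p * v q else 0) =
      ∑ s ∈ L, (∑ p ∈ S, if l p = s then u p else 0) *
        (∑ q ∈ S', if l' q = s then v q else 0) := by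
  have h1 : ∀ s ∈ L, (∑ p ∈ S, if l p = s then u p else 0) *
        (∑ q ∈ S', if l' q = s then v q else 0) =
      ∑ p ∈ S, ∑ q ∈ S', if l p = s then (if l' q = s then u p * v q else 0) else 0 := by
    intro s _
    rw [Finset.sum_mul_sum]
    refine Finset.sum_congr rfl fun p _ => Finset.sum_congr rfl fun q _ => ?_
    split_ifs <;> simp
  rw [Finset.sum_congr rfl h1]
  have h2 : (∑ s ∈ L, ∑ p ∈ S, ∑ q ∈ S', if l p = s then (if l' q = s then u p * v q else 0)
      else 0) = ∑ p ∈ S, ∑ q ∈ S', ∑ s ∈ L,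
        if l p = s then (if l' q = s then u p * v q else 0) else 0 := by
    rw [Finset.sum_comm]
    refine Finset.sum_congr rfl fun p _ => ?_
    rw [Finset.sum_comm]
  rw [h2]
  refine Finset.sum_congr rfl fun p hp => Finset.sum_congr rfl fun q _ => ?_
  rw [Finset.sum_ite_eq]
  rw [if_pos (hL p hp)]
  by_cases h : l p = l' q
  · rw [if_pos h, if_pos h.symm]
  · rw [if_neg h, if_neg (fun h' => h h'.symm)]

/-- Cauchy-Schwarz after grouping by labels -/
theorem csl' {P Q L' : Type*} [DecidableEq L'] (S : Finset P) (S' : Finset Q) (l : P → L')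
    (l' : Q → L') (u : P → ℝ) (v : Q → ℝ) :
    (∑ p ∈ S, ∑ q ∈ S', if l p = l' q then u p * v q else 0) ^ 2 ≤
      (∑ p ∈ S, ∑ p' ∈ S, if l p = l p' then u p * u p' else 0) *
        (∑ q ∈ S', ∑ q' ∈ S', if l' q = l' q' then v q * v q' else 0) := by
  set L : Finset L' := S.image l ∪ S'.image l' with hL
  have h1 : ∀ p ∈ S, l p ∈ L := fun p hp => by
    rw [hL]; exact Finset.mem_union_left _ (Finset.mem_image_of_mem _ hp)
  have h2 : ∀ q ∈ S', l' q ∈ L := fun q hq => by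
    rw [hL]; exact Finset.mem_union_right _ (Finset.mem_image_of_mem _ hq)
  rw [lab' S S' l l' u v L h1, lab' S S l l u u L h1, lab' S' S' l' l' v v L h2]
  have := Finset.sum_mul_sq_le_sq_mul_sq L (fun s => ∑ p ∈ S, if l p = s then u p else 0)
    (fun s => ∑ q ∈ S', if l' q = s then v q else 0)
  simpa only [sq] using this

/-- difference pairing -/
theorem SW_diff {T : Finset ℤ} {f : ℤ → ℝ} (ω : ℤ → ℤ → ℤ → ℤ → ℝ) :
    SW T f ω = ∑ p ∈ T ×ˢ T, ∑ q ∈ T ×ˢ T, if p.1 - p.2 = q.1 - q.2 then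
      ω p.1 q.2 p.2 q.1 * ((f p.1 * f p.2) * (f q.1 * f q.2)) else 0 := by
  rw [Finset.sum_product]
  unfold SW
  refine Finset.sum_congr rfl fun a _ => ?_
  have h1 : (∑ b ∈ T, ∑ c ∈ T, ∑ d ∈ T,
      if a + b = c + d then ω a b c d * (f a * f b * (f c * f d)) else 0) =
      ∑ c ∈ T, ∑ d ∈ T, ∑ b ∈ T,
        if a + b = c + d then ω a b c d * (f a * f b * (f c * f d)) else 0 := by
    rw [Finset.sum_comm]
    refine Finset.sum_congr rfl fun c _ => ?_
    rw [Finset.sum_comm]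
  rw [h1]
  refine Finset.sum_congr rfl fun c _ => ?_
  rw [Finset.sum_product]
  refine Finset.sum_congr rfl fun d _ => Finset.sum_congr rfl fun b _ => ?_
  by_cases h : a + b = c + d
  · rw [if_pos h, if_pos (show a - c = d - b by linarith)]; ring
  · rw [if_neg h, if_neg (fun h' => h (by linarith))]

theorem SW_sum {T : Finset ℤ} {f : ℤ → ℝ} (ω : ℤ → ℤ → ℤ → ℤ → ℝ) :
    SW T f ω = ∑ p ∈ T ×ˢ T, ∑ q ∈ T ×ˢ T, if p.1 + p.2 = q.1 + q.2 then
      ω p.1 p.2 q.1 q.2 * ((f p.1 * f p.2) * (f q.1 * f q.2)) else 0 := by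
  rw [Finset.sum_product]
  unfold SW
  refine Finset.sum_congr rfl fun w _ => Finset.sum_congr rfl fun x _ => ?_
  rw [Finset.sum_product]

end Pool.Agent.TH887.SP
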