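import Pool.Agent.TH887.SP.Classes2

/-!
The cross terms between `g` (living on multiples of `m`) and `f` (living on non-multiples).
-/

set_option autoImplicit false

namespace Pool.Agent.TH887.SP

open Finset H633R4.SP

variable {m : ℕ} {T : Finset ℤ} {f g : ℤ → ℝ}

theorem E_comm12 (T : Finset ℤ) (a b c d : ℤ → ℝ) : E T a b c d = E T b a c d := by
  unfold E
  rw [Finset.sum_comm]
  refine Finset.sum_congr rfl fun w _ => Finset.sum_congr rfl fun x _ =>
    Finset.sum_congr rfl fun y _ => Finset.sum_congr rfl fun z _ => ?_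
  by_cases h : x + w = y + z
  · rw [if_pos h, if_pos (by rw [← h]; ring)]; ring
  · rw [if_neg h, if_neg (fun h' => h (by rw [← h']; ring))]

theorem E_swap (T : Finset ℤ) (a b c d : ℤ → ℝ) : E T a b c d = E T c d a b := by
  rw [E_pairs, E_pairs, Finset.sum_comm]
  refine Finset.sum_congr rfl fun p _ => Finset.sum_congr rfl fun q _ => ?_
  by_cases h : p.1 + p.2 = q.1 + q.2
  · rw [if_pos h, if_pos h.symm]; ring
  · rw [if_neg h, if_neg (fun h' => h h'.symm)]

theorem E_comm34 (T : Finset ℤ) (a b c d : ℤ → ℝ) : E T a b c d = E T a b d c := by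
  rw [E_swap, E_comm12, E_swap]

theorem E_eq_SW (T : Finset ℤ) (f : ℤ → ℝ) : E T f f f f = SW T f (fun _ _ _ _ => 1) := by
  unfold E SW
  refine Finset.sum_congr rfl fun w _ => Finset.sum_congr rfl fun x _ =>
    Finset.sum_congr rfl fun y _ => Finset.sum_congr rfl fun z _ => ?_
  split_ifs <;> ring

theorem U_bd (hg : ∀ n, g n ≠ 0 → (n : ZMod m) = 0) :
    E T g f g f ^ 2 ≤ E T g g g g * XX T f m := by
  classical
  set v : ℤ × ℤ → ℝ := fun q => ind ((q.1 : ZMod m) = q.2) * (f q.1 * f q.2) with hv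
  have key := csl (T ×ˢ T) (T ×ˢ T) (fun p : ℤ × ℤ => p.1 - p.2) (fun p => p.1 - p.2)
    (fun p => g p.1 * g p.2) v
  have e1 : E T g f g f = ∑ p ∈ T ×ˢ T, ∑ q ∈ T ×ˢ T,
      if p.1 - p.2 = q.1 - q.2 then (g p.1 * g p.2) * v q else 0 := by
    rw [E_diff]
    refine Finset.sum_congr rfl fun p _ => Finset.sum_congr rfl fun q _ => ?_
    by_cases h : p.1 - p.2 = q.1 - q.2
    · rw [if_pos h, if_pos h]
      by_cases h1 : g p.1 = 0
      · rw [h1]; ring
      by_cases h2 : g p.2 = 0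
      · rw [h2]; ring
      have h' : (p.1 : ZMod m) - p.2 = q.1 - q.2 := by
        rw [← Int.cast_sub, ← Int.cast_sub, h]
      rw [hg _ h1, hg _ h2, sub_zero] at h'
      rw [hv]
      simp only
      rw [ind_true (sub_eq_zero.1 h'.symm), one_mul]
    · rw [if_neg h, if_neg h]
  have e2 : (∑ q ∈ T ×ˢ T, ∑ q' ∈ T ×ˢ T, if q.1 - q.2 = q'.1 - q'.2 then v q * v q' else 0) =
      XX T f m := by
    unfold XX
    rw [SW_diff]
    refine Finset.sum_congr rfl fun p _ => Finset.sum_congr rfl fun q _ => ?_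
    by_cases h : p.1 - p.2 = q.1 - q.2
    · rw [if_pos h, if_pos h]
      have h' : (p.1 : ZMod m) - p.2 = q.1 - q.2 := by
        rw [← Int.cast_sub, ← Int.cast_sub, h]
      have i1 : ind ((q.1 : ZMod m) = q.2) = ind ((p.1 : ZMod m) = p.2) := by
        apply ind_congr
        rw [← sub_eq_zero, ← h', sub_eq_zero]
      rw [hv]
      simp only
      rw [i1]
      by_cases hi : (p.1 : ZMod m) = p.2
      · rw [ind_true hi]; ring
      · rw [ind_false hi]; ring
    · rw [if_neg h, if_neg h]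
  rw [e2, ← e1] at key
  rw [E_diff T g g]
  exact key

theorem V_bd (hg : ∀ n, g n ≠ 0 → (n : ZMod m) = 0) :
    E T f f g g ^ 2 ≤ E T g g g g * YY T f m := by
  classical
  set v : ℤ × ℤ → ℝ := fun q => ind ((q.1 : ZMod m) + q.2 = 0) * (f q.1 * f q.2) with hv
  have key := csl (T ×ˢ T) (T ×ˢ T) (fun p : ℤ × ℤ => p.1 + p.2) (fun p => p.1 + p.2)
    v (fun p => g p.1 * g p.2)
  have e1 : E T f f g g = ∑ p ∈ T ×ˢ T, ∑ q ∈ T ×ˢ T,
      if p.1 + p.2 = q.1 + q.2 then v p * (g q.1 * g q.2) else 0 := by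
    rw [E_pairs]
    refine Finset.sum_congr rfl fun p _ => Finset.sum_congr rfl fun q _ => ?_
    by_cases h : p.1 + p.2 = q.1 + q.2
    · rw [if_pos h, if_pos h]
      by_cases h1 : g q.1 = 0
      · rw [h1]; ring
      by_cases h2 : g q.2 = 0
      · rw [h2]; ring
      have h' : (p.1 : ZMod m) + p.2 = q.1 + q.2 := by
        rw [← Int.cast_add, ← Int.cast_add, h]
      rw [hg _ h1, hg _ h2, add_zero] at h'
      rw [hv]
      simp only
      rw [ind_true h', one_mul]
    · rw [if_neg h, if_neg h]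
  have e2 : (∑ q ∈ T ×ˢ T, ∑ q' ∈ T ×ˢ T, if q.1 + q.2 = q'.1 + q'.2 then v q * v q' else 0) =
      YY T f m := by
    unfold YY
    rw [SW_sum]
    refine Finset.sum_congr rfl fun p _ => Finset.sum_congr rfl fun q _ => ?_
    by_cases h : p.1 + p.2 = q.1 + q.2
    · rw [if_pos h, if_pos h]
      have h' : (p.1 : ZMod m) + p.2 = q.1 + q.2 := by
        rw [← Int.cast_add, ← Int.cast_add, h]
      have i1 : ind ((q.1 : ZMod m) + q.2 = 0) = ind ((p.1 : ZMod m) + p.2 = 0) := by
        rw [h']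
      rw [hv]
      simp only
      rw [i1]
      by_cases hi : (p.1 : ZMod m) + p.2 = 0
      · rw [ind_true hi]; ring
      · rw [ind_false hi]; ring
    · rw [if_neg h, if_neg h]
  rw [e2, ← e1] at key
  rw [E_pairs T g g g g, mul_comm]
  exact key

/-- weighted form of `E f f f g` -/
noncomputable def WW (T : Finset ℤ) (f g : ℤ → ℝ) (ω : ℤ → ℤ → ℤ → ℝ) : ℝ :=
  ∑ a ∈ T, ∑ b ∈ T, ∑ c ∈ T, ∑ d ∈ T,
    if a + b = c + d then ω a b c * (f a * f b * (f c * g d)) else 0

theorem WW_congr (hg : ∀ n, g n ≠ 0 → (n : ZMod m) = 0) {ω ω' : ℤ → ℤ → ℤ → ℝ}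
    (h : ∀ a b c : ℤ, (a : ZMod m) + b = c → f a ≠ 0 → f b ≠ 0 → f c ≠ 0 → ω a b c = ω' a b c) :
    WW T f g ω = WW T f g ω' := by
  unfold WW
  refine Finset.sum_congr rfl fun a _ => Finset.sum_congr rfl fun b _ =>
    Finset.sum_congr rfl fun c _ => Finset.sum_congr rfl fun d _ => ?_
  split_ifs with h1
  · by_cases ha : f a = 0
    · rw [ha]; ring
    by_cases hb : f b = 0
    · rw [hb]; ring
    by_cases hc : f c = 0
    · rw [hc]; ring
    by_cases hd : g d = 0
    · rw [hd]; ring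
    have h' := cast_eq (m := m) h1
    rw [hg d hd, add_zero] at h'
    rw [h a b c h' ha hb hc]
  · rfl

theorem WW_swap (ω : ℤ → ℤ → ℤ → ℝ) :
    WW T f g (fun a b c => ω b a c) = WW T f g ω := by
  unfold WW
  rw [Finset.sum_comm]
  refine Finset.sum_congr rfl fun w _ => Finset.sum_congr rfl fun x _ =>
    Finset.sum_congr rfl fun y _ => Finset.sum_congr rfl fun z _ => ?_
  by_cases h : x + w = y + z
  · rw [if_pos h, if_pos (by rw [← h]; ring)]; ring
  · rw [if_neg h, if_neg (fun h' => h (by rw [← h']; ring))]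

theorem WW_lin (ω ω' : ℤ → ℤ → ℤ → ℝ) (s t : ℝ) :
    WW T f g (fun a b c => s * ω a b c + t * ω' a b c) = s * WW T f g ω + t * WW T f g ω' := by
  unfold WW
  simp only [Finset.mul_sum, ← Finset.sum_add_distrib]
  refine Finset.sum_congr rfl fun a _ => Finset.sum_congr rfl fun b _ =>
    Finset.sum_congr rfl fun c _ => Finset.sum_congr rfl fun d _ => ?_
  split_ifs <;> ring

theorem WW_diff (ω : ℤ → ℤ → ℝ) :
    WW T f g (fun a _ c => ω a c) = ∑ p ∈ T ×ˢ T, ∑ q ∈ T ×ˢ T, if p.1 - p.2 = q.1 - q.2 then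
      (ω p.1 p.2 * (f p.1 * f p.2)) * (g q.1 * f q.2) else 0 := by
  rw [Finset.sum_product]
  unfold WW
  refine Finset.sum_congr rfl fun a _ => ?_
  have h1 : (∑ b ∈ T, ∑ c ∈ T, ∑ d ∈ T,
      if a + b = c + d then ω a c * (f a * f b * (f c * g d)) else 0) =
      ∑ c ∈ T, ∑ d ∈ T, ∑ b ∈ T,
        if a + b = c + d then ω a c * (f a * f b * (f c * g d)) else 0 := by
    rw [Finset.sum_comm]
    refine Finset.sum_congr rfl fun c _ => ?_
    rw [Finset.sum_comm]
  rw [h1]
  refine Finset.sum_congr rfl fun c _ => ?_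
  rw [Finset.sum_product]
  refine Finset.sum_congr rfl fun d _ => Finset.sum_congr rfl fun b _ => ?_
  by_cases h : a + b = c + d
  · rw [if_pos h, if_pos (show a - c = d - b by linarith)]; ring
  · rw [if_neg h, if_neg (fun h' => h (by linarith))]

theorem WW_ph (hg : ∀ n, g n ≠ 0 → (n : ZMod m) = 0) (hk : ∀ n, f n ≠ 0 → (n : ZMod m) ≠ 0) :
    E T f f f g = WW T f g (fun a _ c => ph m a c) := by
  have e1 : WW T f g (fun a _ c => ind ((a : ZMod m) + c = 0)) =
      WW T f g (fun a _ c => ind ((a : ZMod m) = 2 * c)) := by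
    rw [← WW_swap (fun a _ c => ind ((a : ZMod m) = 2 * c))]
    apply WW_congr hg
    intro a b c h _ _ _
    apply ind_congr
    constructor
    · intro h4
      linear_combination h - h4
    · intro h4
      linear_combination (-1 : ZMod m) * h4 + h
  have e2 : WW T f g (fun a _ c => ph m a c) =
      1 * WW T f g (fun a _ c => ind ((a : ZMod m) ≠ c)) +
        1 * WW T f g (fun a _ c => (-(1 / 5)) * ind ((a : ZMod m) + c = 0) +
          1 / 5 * ind ((a : ZMod m) = 2 * c)) := by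
    rw [← WW_lin]
    congr 1
    funext a b c
    unfold ph
    ring
  rw [e2, WW_lin, e1]
  have e3 : WW T f g (fun a _ c => ind ((a : ZMod m) ≠ c)) = WW T f g (fun _ _ _ => 1) := by
    apply WW_congr hg
    intro a b c h ha hb hc
    apply ind_true
    intro h4
    apply hk b hb
    rw [h4] at h
    exact (add_eq_left.1 h)
  rw [e3]
  have e4 : E T f f f g = WW T f g (fun _ _ _ => 1) := by
    unfold E WW
    refine Finset.sum_congr rfl fun w _ => Finset.sum_congr rfl fun x _ =>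
      Finset.sum_congr rfl fun y _ => Finset.sum_congr rfl fun z _ => ?_
    split_ifs <;> ring
  rw [e4]
  ring

theorem W_bd (hg : ∀ n, g n ≠ 0 → (n : ZMod m) = 0) (hk : ∀ n, f n ≠ 0 → (n : ZMod m) ≠ 0) :
    E T f f f g ^ 2 ≤ E T g f g f * SW T f (fun a b c d => ph m a c * ph m d b) := by
  classical
  rw [WW_ph hg hk, WW_diff]
  have key := csl (T ×ˢ T) (T ×ˢ T) (fun p : ℤ × ℤ => p.1 - p.2) (fun p => p.1 - p.2)
    (fun p => ph m p.1 p.2 * (f p.1 * f p.2)) (fun q => g q.1 * f q.2)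
  refine key.trans (le_of_eq ?_)
  rw [mul_comm]
  congr 1
  · -- E g f g f
    rw [Finset.sum_product]
    unfold E
    refine Finset.sum_congr rfl fun w _ => ?_
    have h1 : (∑ x ∈ T, ∑ y ∈ T, ∑ z ∈ T,
        if w + x = y + z then g w * f x * (g y * f z) else 0) =
        ∑ z ∈ T, ∑ y ∈ T, ∑ x ∈ T,
          if w + x = y + z then g w * f x * (g y * f z) else 0 := by
      have e1 : ∀ x ∈ T, (∑ y ∈ T, ∑ z ∈ T,
          if w + x = y + z then g w * f x * (g y * f z) else 0) =
          ∑ z ∈ T, ∑ y ∈ T, if w + x = y + z then g w * f x * (g y * f z) else 0 :=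
        fun x _ => Finset.sum_comm
      rw [Finset.sum_congr rfl e1, Finset.sum_comm]
      refine Finset.sum_congr rfl fun z _ => ?_
      rw [Finset.sum_comm]
    rw [h1]
    refine Finset.sum_congr rfl fun z _ => ?_
    rw [Finset.sum_product]
    refine Finset.sum_congr rfl fun y _ => Finset.sum_congr rfl fun x _ => ?_
    by_cases h : w + x = y + z
    · rw [if_pos h, if_pos (show w - z = y - x by linarith)]; ring
    · rw [if_neg h, if_neg (fun h' => h (by linarith))]
  · rw [SW_diff]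
    refine Finset.sum_congr rfl fun p _ => Finset.sum_congr rfl fun q _ => ?_
    split_ifs <;> ring

end Pool.Agent.TH887.SP
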