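import Mathlib

/-!
Linear consequences of `(ρ + s σ)⁴ ≤ r² (ρ² + 5.4 s² ρ σ + 2.5 s⁴ σ²)`, `ρ, σ ≤ r`
(Bernstein certificates).
-/

set_option autoImplicit false

namespace Pool.Agent.TH887.SP

theorem F1_0 {p q : ℝ} (hp : 0 ≤ p) (hq : 0 ≤ q) :
    (203 / 250 * (p + q) + 57 / 100 * (3 / 10 * p + 19 / 10 * q)) ^ 2 * ((p + q) ^ 2 + 54 / 10 * (7 / 10) ^ 2 * ((p + q) * (3 / 10 * p + 19 / 10 * q)) +
        5 / 2 * (7 / 10) ^ 4 * (3 / 10 * p + 19 / 10 * q) ^ 2) ≤ ((p + q) + 7 / 10 * (3 / 10 * p + 19 / 10 * q)) ^ 4 := by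
  have e : ((p + q) + 7 / 10 * (3 / 10 * p + 19 / 10 * q)) ^ 4 -
      (203 / 250 * (p + q) + 57 / 100 * (3 / 10 * p + 19 / 10 * q)) ^ 2 * ((p + q) ^ 2 + 54 / 10 * (7 / 10) ^ 2 * ((p + q) * (3 / 10 * p + 19 / 10 * q)) +
        5 / 2 * (7 / 10) ^ 4 * (3 / 10 * p + 19 / 10 * q) ^ 2) =
      143223301719 / 400000000000 * p ^ 4 * q ^ 0 + 140799985351 / 100000000000 * p ^ 3 * q ^ 1 + 289858805413 / 200000000000 * p ^ 2 * q ^ 2 + 3018684859 / 20000000000 * p ^ 1 * q ^ 3 + 752161199 / 16000000000 * p ^ 0 * q ^ 4 := by ring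
  have : 0 ≤ 143223301719 / 400000000000 * p ^ 4 * q ^ 0 + 140799985351 / 100000000000 * p ^ 3 * q ^ 1 + 289858805413 / 200000000000 * p ^ 2 * q ^ 2 + 3018684859 / 20000000000 * p ^ 1 * q ^ 3 + 752161199 / 16000000000 * p ^ 0 * q ^ 4 := by
    positivity
  linarith

theorem F1_line {ρ σ r : ℝ} (hρ : 0 ≤ ρ) (hσ : 0 ≤ σ) (h1 : ρ ≤ r) (h2 : σ ≤ r)
    (h : (ρ + 7 / 10 * σ) ^ 4 ≤ r ^ 2 * (ρ ^ 2 + 54 / 10 * (7 / 10) ^ 2 * (ρ * σ) + 5 / 2 * (7 / 10) ^ 4 * σ ^ 2)) :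
    203 / 250 * ρ + 57 / 100 * σ ≤ r := by
  by_contra hc
  rw [not_le] at hc
  have hρ0 : 0 < ρ := by linarith
  have hlo : 3 / 10 * ρ ≤ σ := by linarith
  have hhi : σ ≤ 19 / 10 * ρ := by linarith
  have key : (203 / 250 * ρ + 57 / 100 * σ) ^ 2 * (ρ ^ 2 + 54 / 10 * (7 / 10) ^ 2 * (ρ * σ) + 5 / 2 * (7 / 10) ^ 4 * σ ^ 2) ≤ (ρ + 7 / 10 * σ) ^ 4 := by
    have := F1_0 (p := ((19 / 10) * ρ - σ) / (8 / 5)) (q := (σ - (3 / 10) * ρ) / (8 / 5)) (div_nonneg (by linarith) (by norm_num)) (div_nonneg (by linarith) (by norm_num))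
    have e1 : ((19 / 10) * ρ - σ) / (8 / 5) + (σ - (3 / 10) * ρ) / (8 / 5) = ρ := by ring
    have e2 : 3 / 10 * (((19 / 10) * ρ - σ) / (8 / 5)) + 19 / 10 * ((σ - (3 / 10) * ρ) / (8 / 5)) = σ := by ring
    rw [e1, e2] at this
    exact this
  have hM : 0 < ρ ^ 2 + 54 / 10 * (7 / 10) ^ 2 * (ρ * σ) + 5 / 2 * (7 / 10) ^ 4 * σ ^ 2 := by positivity
  have hr : 0 ≤ r := by linarith
  have h3 : r ^ 2 < (203 / 250 * ρ + 57 / 100 * σ) ^ 2 := pow_lt_pow_left₀ hc hr (by norm_num)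
  have h4 := mul_lt_mul_of_pos_right h3 hM
  linarith

theorem F2_0 {p q : ℝ} (hp : 0 ≤ p) (hq : 0 ≤ q) :
    (899 / 1000 * (p + q) + 103 / 200 * (1 / 10 * p + 1 * q)) ^ 2 * ((p + q) ^ 2 + 54 / 10 * (57 / 100) ^ 2 * ((p + q) * (1 / 10 * p + 1 * q)) +
        5 / 2 * (57 / 100) ^ 4 * (1 / 10 * p + 1 * q) ^ 2) ≤ ((p + q) + 57 / 100 * (1 / 10 * p + 1 * q)) ^ 4 := by
  have e : ((p + q) + 57 / 100 * (1 / 10 * p + 1 * q)) ^ 4 -
      (899 / 1000 * (p + q) + 103 / 200 * (1 / 10 * p + 1 * q)) ^ 2 * ((p + q) ^ 2 + 54 / 10 * (57 / 100) ^ 2 * ((p + q) * (1 / 10 * p + 1 * q)) +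
        5 / 2 * (57 / 100) ^ 4 * (1 / 10 * p + 1 * q) ^ 2) =
      2942466240062199 / 16000000000000000 * p ^ 4 * q ^ 0 + 2605546125156981 / 4000000000000000 * p ^ 3 * q ^ 1 + 2942120260879299 / 4000000000000000 * p ^ 2 * q ^ 2 + 28554713210667 / 100000000000000 * p ^ 1 * q ^ 3 + 408350494551 / 10000000000000 * p ^ 0 * q ^ 4 := by ring
  have : 0 ≤ 2942466240062199 / 16000000000000000 * p ^ 4 * q ^ 0 + 2605546125156981 / 4000000000000000 * p ^ 3 * q ^ 1 + 2942120260879299 / 4000000000000000 * p ^ 2 * q ^ 2 + 28554713210667 / 100000000000000 * p ^ 1 * q ^ 3 + 408350494551 / 10000000000000 * p ^ 0 * q ^ 4 := by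
    positivity
  linarith

theorem F2_1 {p q : ℝ} (hp : 0 ≤ p) (hq : 0 ≤ q) :
    (899 / 1000 * (p + q) + 103 / 200 * (1 * p + 19 / 10 * q)) ^ 2 * ((p + q) ^ 2 + 54 / 10 * (57 / 100) ^ 2 * ((p + q) * (1 * p + 19 / 10 * q)) +
        5 / 2 * (57 / 100) ^ 4 * (1 * p + 19 / 10 * q) ^ 2) ≤ ((p + q) + 57 / 100 * (1 * p + 19 / 10 * q)) ^ 4 := by
  have e : ((p + q) + 57 / 100 * (1 * p + 19 / 10 * q)) ^ 4 -
      (899 / 1000 * (p + q) + 103 / 200 * (1 * p + 19 / 10 * q)) ^ 2 * ((p + q) ^ 2 + 54 / 10 * (57 / 100) ^ 2 * ((p + q) * (1 * p + 19 / 10 * q)) +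
        5 / 2 * (57 / 100) ^ 4 * (1 * p + 19 / 10 * q) ^ 2) =
      408350494551 / 10000000000000 * p ^ 4 * q ^ 0 + 4113326353413 / 100000000000000 * p ^ 3 * q ^ 1 + 9153838008819 / 4000000000000000 * p ^ 2 * q ^ 2 + 136711781498571 / 800000000000000 * p ^ 1 * q ^ 3 + 123030446549079 / 640000000000000 * p ^ 0 * q ^ 4 := by ring
  have : 0 ≤ 408350494551 / 10000000000000 * p ^ 4 * q ^ 0 + 4113326353413 / 100000000000000 * p ^ 3 * q ^ 1 + 9153838008819 / 4000000000000000 * p ^ 2 * q ^ 2 + 136711781498571 / 800000000000000 * p ^ 1 * q ^ 3 + 123030446549079 / 640000000000000 * p ^ 0 * q ^ 4 := by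
    positivity
  linarith

theorem F2_line {ρ σ r : ℝ} (hρ : 0 ≤ ρ) (hσ : 0 ≤ σ) (h1 : ρ ≤ r) (h2 : σ ≤ r)
    (h : (ρ + 57 / 100 * σ) ^ 4 ≤ r ^ 2 * (ρ ^ 2 + 54 / 10 * (57 / 100) ^ 2 * (ρ * σ) + 5 / 2 * (57 / 100) ^ 4 * σ ^ 2)) :
    899 / 1000 * ρ + 103 / 200 * σ ≤ r := by
  by_contra hc
  rw [not_le] at hc
  have hρ0 : 0 < ρ := by linarith
  have hlo : 1 / 10 * ρ ≤ σ := by linarith
  have hhi : σ ≤ 19 / 10 * ρ := by linarith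
  have key : (899 / 1000 * ρ + 103 / 200 * σ) ^ 2 * (ρ ^ 2 + 54 / 10 * (57 / 100) ^ 2 * (ρ * σ) + 5 / 2 * (57 / 100) ^ 4 * σ ^ 2) ≤ (ρ + 57 / 100 * σ) ^ 4 := by
    rcases le_total σ (1 * ρ) with h0 | h0
    · have := F2_0 (p := ((1) * ρ - σ) / (9 / 10)) (q := (σ - (1 / 10) * ρ) / (9 / 10)) (div_nonneg (by linarith) (by norm_num)) (div_nonneg (by linarith) (by norm_num))
      have e1 : ((1) * ρ - σ) / (9 / 10) + (σ - (1 / 10) * ρ) / (9 / 10) = ρ := by ring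
      have e2 : 1 / 10 * (((1) * ρ - σ) / (9 / 10)) + 1 * ((σ - (1 / 10) * ρ) / (9 / 10)) = σ := by ring
      rw [e1, e2] at this
      exact this
    have := F2_1 (p := ((19 / 10) * ρ - σ) / (9 / 10)) (q := (σ - (1) * ρ) / (9 / 10)) (div_nonneg (by linarith) (by norm_num)) (div_nonneg (by linarith) (by norm_num))
    have e1 : ((19 / 10) * ρ - σ) / (9 / 10) + (σ - (1) * ρ) / (9 / 10) = ρ := by ring
    have e2 : 1 * (((19 / 10) * ρ - σ) / (9 / 10)) + 19 / 10 * ((σ - (1) * ρ) / (9 / 10)) = σ := by ring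
    rw [e1, e2] at this
    exact this
  have hM : 0 < ρ ^ 2 + 54 / 10 * (57 / 100) ^ 2 * (ρ * σ) + 5 / 2 * (57 / 100) ^ 4 * σ ^ 2 := by positivity
  have hr : 0 ≤ r := by linarith
  have h3 : r ^ 2 < (899 / 1000 * ρ + 103 / 200 * σ) ^ 2 := pow_lt_pow_left₀ hc hr (by norm_num)
  have h4 := mul_lt_mul_of_pos_right h3 hM
  linarith

theorem F3_0 {p q : ℝ} (hp : 0 ≤ p) (hq : 0 ≤ q) :
    (493 / 500 * (p + q) + 21 / 50 * (0 * p + 9 / 20 * q)) ^ 2 * ((p + q) ^ 2 + 54 / 10 * (43 / 100) ^ 2 * ((p + q) * (0 * p + 9 / 20 * q)) +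
        5 / 2 * (43 / 100) ^ 4 * (0 * p + 9 / 20 * q) ^ 2) ≤ ((p + q) + 43 / 100 * (0 * p + 9 / 20 * q)) ^ 4 := by
  have e : ((p + q) + 43 / 100 * (0 * p + 9 / 20 * q)) ^ 4 -
      (493 / 500 * (p + q) + 21 / 50 * (0 * p + 9 / 20 * q)) ^ 2 * ((p + q) ^ 2 + 54 / 10 * (43 / 100) ^ 2 * ((p + q) * (0 * p + 9 / 20 * q)) +
        5 / 2 * (43 / 100) ^ 4 * (0 * p + 9 / 20 * q) ^ 2) =
      6951 / 250000 * p ^ 4 * q ^ 0 + 18923382957 / 250000000000 * p ^ 3 * q ^ 1 + 259609299207831 / 4000000000000000 * p ^ 2 * q ^ 2 + 3267191912349 / 160000000000000 * p ^ 1 * q ^ 3 + 536426358243 / 128000000000000 * p ^ 0 * q ^ 4 := by ring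
  have : 0 ≤ 6951 / 250000 * p ^ 4 * q ^ 0 + 18923382957 / 250000000000 * p ^ 3 * q ^ 1 + 259609299207831 / 4000000000000000 * p ^ 2 * q ^ 2 + 3267191912349 / 160000000000000 * p ^ 1 * q ^ 3 + 536426358243 / 128000000000000 * p ^ 0 * q ^ 4 := by
    positivity
  linarith

theorem F3_1 {p q : ℝ} (hp : 0 ≤ p) (hq : 0 ≤ q) :
    (493 / 500 * (p + q) + 21 / 50 * (9 / 20 * p + 87 / 100 * q)) ^ 2 * ((p + q) ^ 2 + 54 / 10 * (43 / 100) ^ 2 * ((p + q) * (9 / 20 * p + 87 / 100 * q)) +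
        5 / 2 * (43 / 100) ^ 4 * (9 / 20 * p + 87 / 100 * q) ^ 2) ≤ ((p + q) + 43 / 100 * (9 / 20 * p + 87 / 100 * q)) ^ 4 := by
  have e : ((p + q) + 43 / 100 * (9 / 20 * p + 87 / 100 * q)) ^ 4 -
      (493 / 500 * (p + q) + 21 / 50 * (9 / 20 * p + 87 / 100 * q)) ^ 2 * ((p + q) ^ 2 + 54 / 10 * (43 / 100) ^ 2 * ((p + q) * (9 / 20 * p + 87 / 100 * q)) +
        5 / 2 * (43 / 100) ^ 4 * (9 / 20 * p + 87 / 100 * q) ^ 2) =
      536426358243 / 128000000000000 * p ^ 4 * q ^ 0 + 10680378390783 / 800000000000000 * p ^ 3 * q ^ 1 + 7996702284255753 / 200000000000000000 * p ^ 2 * q ^ 2 + 32247973935158379 / 500000000000000000 * p ^ 1 * q ^ 3 + 342667577730074319 / 10000000000000000000 * p ^ 0 * q ^ 4 := by ring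
  have : 0 ≤ 536426358243 / 128000000000000 * p ^ 4 * q ^ 0 + 10680378390783 / 800000000000000 * p ^ 3 * q ^ 1 + 7996702284255753 / 200000000000000000 * p ^ 2 * q ^ 2 + 32247973935158379 / 500000000000000000 * p ^ 1 * q ^ 3 + 342667577730074319 / 10000000000000000000 * p ^ 0 * q ^ 4 := by
    positivity
  linarith

theorem F3_2 {p q : ℝ} (hp : 0 ≤ p) (hq : 0 ≤ q) :
    (493 / 500 * (p + q) + 21 / 50 * (87 / 100 * p + 17 / 10 * q)) ^ 2 * ((p + q) ^ 2 + 54 / 10 * (43 / 100) ^ 2 * ((p + q) * (87 / 100 * p + 17 / 10 * q)) +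
        5 / 2 * (43 / 100) ^ 4 * (87 / 100 * p + 17 / 10 * q) ^ 2) ≤ ((p + q) + 43 / 100 * (87 / 100 * p + 17 / 10 * q)) ^ 4 := by
  have e : ((p + q) + 43 / 100 * (87 / 100 * p + 17 / 10 * q)) ^ 4 -
      (493 / 500 * (p + q) + 21 / 50 * (87 / 100 * p + 17 / 10 * q)) ^ 2 * ((p + q) ^ 2 + 54 / 10 * (43 / 100) ^ 2 * ((p + q) * (87 / 100 * p + 17 / 10 * q)) +
        5 / 2 * (43 / 100) ^ 4 * (87 / 100 * p + 17 / 10 * q) ^ 2) =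
      342667577730074319 / 10000000000000000000 * p ^ 4 * q ^ 0 + 140240657300802679 / 500000000000000000 * p ^ 3 * q ^ 1 + 83929624372847339 / 100000000000000000 * p ^ 2 * q ^ 2 + 105290294737749 / 100000000000000 * p ^ 1 * q ^ 3 + 937782133037 / 2000000000000 * p ^ 0 * q ^ 4 := by ring
  have : 0 ≤ 342667577730074319 / 10000000000000000000 * p ^ 4 * q ^ 0 + 140240657300802679 / 500000000000000000 * p ^ 3 * q ^ 1 + 83929624372847339 / 100000000000000000 * p ^ 2 * q ^ 2 + 105290294737749 / 100000000000000 * p ^ 1 * q ^ 3 + 937782133037 / 2000000000000 * p ^ 0 * q ^ 4 := by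
    positivity
  linarith

theorem F3_line {ρ σ r : ℝ} (hρ : 0 ≤ ρ) (hσ : 0 ≤ σ) (h1 : ρ ≤ r) (h2 : σ ≤ r)
    (h : (ρ + 43 / 100 * σ) ^ 4 ≤ r ^ 2 * (ρ ^ 2 + 54 / 10 * (43 / 100) ^ 2 * (ρ * σ) + 5 / 2 * (43 / 100) ^ 4 * σ ^ 2)) :
    493 / 500 * ρ + 21 / 50 * σ ≤ r := by
  by_contra hc
  rw [not_le] at hc
  have hρ0 : 0 < ρ := by linarith
  have hlo : 0 * ρ ≤ σ := by linarith
  have hhi : σ ≤ 17 / 10 * ρ := by linarith
  have key : (493 / 500 * ρ + 21 / 50 * σ) ^ 2 * (ρ ^ 2 + 54 / 10 * (43 / 100) ^ 2 * (ρ * σ) + 5 / 2 * (43 / 100) ^ 4 * σ ^ 2) ≤ (ρ + 43 / 100 * σ) ^ 4 := by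
    rcases le_total σ (9 / 20 * ρ) with h0 | h0
    · have := F3_0 (p := ((9 / 20) * ρ - σ) / (9 / 20)) (q := (σ - (0) * ρ) / (9 / 20)) (div_nonneg (by linarith) (by norm_num)) (div_nonneg (by linarith) (by norm_num))
      have e1 : ((9 / 20) * ρ - σ) / (9 / 20) + (σ - (0) * ρ) / (9 / 20) = ρ := by ring
      have e2 : 0 * (((9 / 20) * ρ - σ) / (9 / 20)) + 9 / 20 * ((σ - (0) * ρ) / (9 / 20)) = σ := by ring
      rw [e1, e2] at this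
      exact this
    rcases le_total σ (87 / 100 * ρ) with h1 | h1
    · have := F3_1 (p := ((87 / 100) * ρ - σ) / (21 / 50)) (q := (σ - (9 / 20) * ρ) / (21 / 50)) (div_nonneg (by linarith) (by norm_num)) (div_nonneg (by linarith) (by norm_num))
      have e1 : ((87 / 100) * ρ - σ) / (21 / 50) + (σ - (9 / 20) * ρ) / (21 / 50) = ρ := by ring
      have e2 : 9 / 20 * (((87 / 100) * ρ - σ) / (21 / 50)) + 87 / 100 * ((σ - (9 / 20) * ρ) / (21 / 50)) = σ := by ring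
      rw [e1, e2] at this
      exact this
    have := F3_2 (p := ((17 / 10) * ρ - σ) / (83 / 100)) (q := (σ - (87 / 100) * ρ) / (83 / 100)) (div_nonneg (by linarith) (by norm_num)) (div_nonneg (by linarith) (by norm_num))
    have e1 : ((17 / 10) * ρ - σ) / (83 / 100) + (σ - (87 / 100) * ρ) / (83 / 100) = ρ := by ring
    have e2 : 87 / 100 * (((17 / 10) * ρ - σ) / (83 / 100)) + 17 / 10 * ((σ - (87 / 100) * ρ) / (83 / 100)) = σ := by ring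
    rw [e1, e2] at this
    exact this
  have hM : 0 < ρ ^ 2 + 54 / 10 * (43 / 100) ^ 2 * (ρ * σ) + 5 / 2 * (43 / 100) ^ 4 * σ ^ 2 := by positivity
  have hr : 0 ≤ r := by linarith
  have h3 : r ^ 2 < (493 / 500 * ρ + 21 / 50 * σ) ^ 2 := pow_lt_pow_left₀ hc hr (by norm_num)
  have h4 := mul_lt_mul_of_pos_right h3 hM
  linarith

theorem F4_0 {p q : ℝ} (hp : 0 ≤ p) (hq : 0 ≤ q) :
    (1 * (p + q) + 37 / 100 * (0 * p + 8 / 5 * q)) ^ 2 * ((p + q) ^ 2 + 54 / 10 * (37 / 100) ^ 2 * ((p + q) * (0 * p + 8 / 5 * q)) +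
        5 / 2 * (37 / 100) ^ 4 * (0 * p + 8 / 5 * q) ^ 2) ≤ ((p + q) + 37 / 100 * (0 * p + 8 / 5 * q)) ^ 4 := by
  have e : ((p + q) + 37 / 100 * (0 * p + 8 / 5 * q)) ^ 4 -
      (1 * (p + q) + 37 / 100 * (0 * p + 8 / 5 * q)) ^ 2 * ((p + q) ^ 2 + 54 / 10 * (37 / 100) ^ 2 * ((p + q) * (0 * p + 8 / 5 * q)) +
        5 / 2 * (37 / 100) ^ 4 * (0 * p + 8 / 5 * q) ^ 2) =
      0 * p ^ 4 * q ^ 0 + 37 / 31250 * p ^ 3 * q ^ 1 + 3679243 / 15625000 * p ^ 2 * q ^ 2 + 144675587 / 195312500 * p ^ 1 * q ^ 3 + 143369044739 / 244140625000 * p ^ 0 * q ^ 4 := by ring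
  have : 0 ≤ 0 * p ^ 4 * q ^ 0 + 37 / 31250 * p ^ 3 * q ^ 1 + 3679243 / 15625000 * p ^ 2 * q ^ 2 + 144675587 / 195312500 * p ^ 1 * q ^ 3 + 143369044739 / 244140625000 * p ^ 0 * q ^ 4 := by
    positivity
  linarith

theorem F4_line {ρ σ r : ℝ} (hρ : 0 ≤ ρ) (hσ : 0 ≤ σ) (h1 : ρ ≤ r) (h2 : σ ≤ r)
    (h : (ρ + 37 / 100 * σ) ^ 4 ≤ r ^ 2 * (ρ ^ 2 + 54 / 10 * (37 / 100) ^ 2 * (ρ * σ) + 5 / 2 * (37 / 100) ^ 4 * σ ^ 2)) :
    1 * ρ + 37 / 100 * σ ≤ r := by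
  by_contra hc
  rw [not_le] at hc
  have hρ0 : 0 < ρ := by linarith
  have hlo : 0 * ρ ≤ σ := by linarith
  have hhi : σ ≤ 8 / 5 * ρ := by linarith
  have key : (1 * ρ + 37 / 100 * σ) ^ 2 * (ρ ^ 2 + 54 / 10 * (37 / 100) ^ 2 * (ρ * σ) + 5 / 2 * (37 / 100) ^ 4 * σ ^ 2) ≤ (ρ + 37 / 100 * σ) ^ 4 := by
    have := F4_0 (p := ((8 / 5) * ρ - σ) / (8 / 5)) (q := (σ - (0) * ρ) / (8 / 5)) (div_nonneg (by linarith) (by norm_num)) (div_nonneg (by linarith) (by norm_num))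
    have e1 : ((8 / 5) * ρ - σ) / (8 / 5) + (σ - (0) * ρ) / (8 / 5) = ρ := by ring
    have e2 : 0 * (((8 / 5) * ρ - σ) / (8 / 5)) + 8 / 5 * ((σ - (0) * ρ) / (8 / 5)) = σ := by ring
    rw [e1, e2] at this
    exact this
  have hM : 0 < ρ ^ 2 + 54 / 10 * (37 / 100) ^ 2 * (ρ * σ) + 5 / 2 * (37 / 100) ^ 4 * σ ^ 2 := by positivity
  have hr : 0 ≤ r := by linarith
  have h3 : r ^ 2 < (1 * ρ + 37 / 100 * σ) ^ 2 := pow_lt_pow_left₀ hc hr (by norm_num)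
  have h4 := mul_lt_mul_of_pos_right h3 hM
  linarith

end Pool.Agent.TH887.SP
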