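import Pool.Agent.H633R4.SP.Func
import Pool.Agent.TH887.SP.Al
import Pool.Agent.TH887.SP.Lines

/-!
Consequences of the improved fourth moment inequality for the functional `R`.
-/

set_option autoImplicit false

namespace Pool.Agent.TH887.SP

open Finset H633R4.SP

/-- the improved inequality holds for all weights on `A₁` and `A₀` -/
def Comb (A₁ A₀ : Finset ℤ) : Prop :=
  ∀ (T : Finset ℤ) (g f : ℤ → ℝ), (∀ n, 0 ≤ g n) → (∀ n, 0 ≤ f n) → (∀ n, n ∉ A₁ → g n = 0) →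
    (∀ n, n ∉ A₀ → f n = 0) → N T (fun n => g n + f n) ^ 2 ≤
      N T g ^ 2 + 54 / 10 * (N T g * N T f) + 5 / 2 * N T f ^ 2

theorem G_scale {A : Finset ℤ} {f : ℤ → ℝ} {a M : ℝ} (h0 : ∀ n, 0 ≤ f n)
    (hA : ∀ n, n ∉ A → f n = 0) (ha : ∑ n ∈ A, f n = a) (hM : 0 < M) (hN : N A f ≤ M) :
    G A (a ^ 2 / M) := by
  have ha0 : 0 ≤ a := by rw [← ha]; exact Finset.sum_nonneg fun n _ => h0 n
  refine ⟨fun n => (a / M) * f n, fun n => mul_nonneg (div_nonneg ha0 hM.le) (h0 n),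
    fun n hn => ?_, ?_, ?_⟩
  · show (a / M) * f n = 0
    rw [hA n hn, mul_zero]
  · rw [← Finset.mul_sum, ha]; ring
  · rw [N_smul]
    calc (a / M) ^ 2 * N A f ≤ (a / M) ^ 2 * M := mul_le_mul_of_nonneg_left hN (sq_nonneg _)
      _ = a ^ 2 / M := by field_simp

theorem G_line {A A₀ A₁ : Finset ℤ} (hA : A.Nonempty) (h0 : A₀ ⊆ A) (h1 : A₁ ⊆ A)
    (hc : Comb A₁ A₀) {ρ σ s : ℝ} (hρ : G A₁ ρ) (hσ : G A₀ σ) (hs : 0 ≤ s) :
    (ρ + s * σ) ^ 4 ≤ R A ^ 2 *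
      (ρ ^ 2 + 54 / 10 * s ^ 2 * (ρ * σ) + 5 / 2 * s ^ 4 * σ ^ 2) := by
  have hρ0 := G_nonneg hρ
  have hσ0 := G_nonneg hσ
  obtain ⟨g, g1, g2, g3, g4⟩ := hρ
  obtain ⟨f, f1, f2, f3, f4⟩ := hσ
  have g2' : ∀ n, n ∉ A → g n = 0 := fun n hn => g2 n (fun h' => hn (h1 h'))
  have f2' : ∀ n, n ∉ A → f n = 0 := fun n hn => f2 n (fun h' => hn (h0 h'))
  set M2 : ℝ := ρ ^ 2 + 54 / 10 * s ^ 2 * (ρ * σ) + 5 / 2 * s ^ 4 * σ ^ 2 with hM2
  have hM20 : 0 ≤ M2 := by positivity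
  have hsum : ∑ n ∈ A, (g n + s * f n) = ρ + s * σ := by
    rw [Finset.sum_add_distrib, ← Finset.mul_sum]
    have e1 : ∑ n ∈ A, g n = ρ := by
      rw [← g3]; exact (Finset.sum_subset h1 fun n _ hn => g2 n hn).symm
    have e2 : ∑ n ∈ A, f n = σ := by
      rw [← f3]; exact (Finset.sum_subset h0 fun n _ hn => f2 n hn).symm
    rw [e1, e2]
  have hN2 : N A (fun n => g n + s * f n) ^ 2 ≤ M2 := by
    have h := hc A g (fun n => s * f n) g1 (fun n => mul_nonneg hs (f1 n)) g2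
      (fun n hn => by rw [f2 n hn, mul_zero])
    rw [N_smul, N_sub h1 g g2, N_sub h0 f f2] at h
    have hNg := N_nonneg A₁ g
    have hNf := N_nonneg A₀ f
    have b1 : N A₁ g ^ 2 ≤ ρ ^ 2 := pow_le_pow_left₀ hNg g4 2
    have b2 : N A₀ f ^ 2 ≤ σ ^ 2 := pow_le_pow_left₀ hNf f4 2
    have b3 : N A₁ g * N A₀ f ≤ ρ * σ := mul_le_mul g4 f4 hNf hρ0
    have b4 := mul_le_mul_of_nonneg_left b3 (show 0 ≤ 54 / 10 * s ^ 2 by positivity)
    have b5 := mul_le_mul_of_nonneg_left b2 (show 0 ≤ 5 / 2 * s ^ 4 by positivity)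
    rw [hM2]
    nlinarith
  rcases hM20.eq_or_lt with hz | hpos
  · -- everything vanishes
    have hρz : ρ = 0 := by
      have : ρ ^ 2 ≤ 0 := by
        have c1 : 0 ≤ 54 / 10 * s ^ 2 * (ρ * σ) := by positivity
        have c2 : 0 ≤ 5 / 2 * s ^ 4 * σ ^ 2 := by positivity
        linarith
      nlinarith
    have hsz : s * σ = 0 := by
      have : (s * σ) ^ 2 * s ^ 2 ≤ 0 := by
        have c1 : 0 ≤ 54 / 10 * s ^ 2 * (ρ * σ) := by positivity
        have c2 : 0 ≤ ρ ^ 2 := by positivity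
        nlinarith
      rcases hs.eq_or_lt with h | h
      · rw [← h, zero_mul]
      · have h5 : (s * σ) ^ 2 ≤ 0 := by
          by_contra hh
          rw [not_le] at hh
          have := mul_pos hh (pow_pos h 2)
          linarith
        nlinarith [sq_nonneg (s * σ)]
    rw [hρz, hsz]
    have : 0 ≤ R A ^ 2 * M2 := by positivity
    simpa using this
  · have hsq : 0 < Real.sqrt M2 := Real.sqrt_pos.2 hpos
    have hNle : N A (fun n => g n + s * f n) ≤ Real.sqrt M2 :=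
      Real.le_sqrt_of_sq_le hN2
    have hG := G_scale (A := A) (f := fun n => g n + s * f n)
      (fun n => add_nonneg (g1 n) (mul_nonneg hs (f1 n)))
      (fun n hn => by
        show g n + s * f n = 0
        rw [g2' n hn, f2' n hn]; ring) hsum hsq hNle
    have hle : (ρ + s * σ) ^ 2 / Real.sqrt M2 ≤ R A := le_csSup (bdd hA) hG
    rw [div_le_iff₀ hsq] at hle
    have h4 := pow_le_pow_left₀ (sq_nonneg (ρ + s * σ)) hle 2
    rw [mul_pow, Real.sq_sqrt hM20, ← pow_mul] at h4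
    exact h4

theorem R_line {A A₀ A₁ : Finset ℤ} (hA : A.Nonempty) (h0 : A₀ ⊆ A) (h1 : A₁ ⊆ A)
    (hc : Comb A₁ A₀) {α β s : ℝ} (hα : 0 < α) (hβ : 0 < β) (hs : 0 ≤ s)
    (hline : ∀ ρ σ r : ℝ, 0 ≤ ρ → 0 ≤ σ → ρ ≤ r → σ ≤ r →
      (ρ + s * σ) ^ 4 ≤ r ^ 2 * (ρ ^ 2 + 54 / 10 * s ^ 2 * (ρ * σ) + 5 / 2 * s ^ 4 * σ ^ 2) →
      α * ρ + β * σ ≤ r) :
    α * R A₁ + β * R A₀ ≤ R A := by
  have main : ∀ ρ σ, G A₁ ρ → G A₀ σ → α * ρ + β * σ ≤ R A := fun ρ σ hρ hσ =>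
    hline ρ σ (R A) (G_nonneg hρ) (G_nonneg hσ) (le_csSup (bdd hA) (G_sub h1 hρ))
      (le_csSup (bdd hA) (G_sub h0 hσ)) (G_line hA h0 h1 hc hρ hσ hs)
  have key : ∀ σ, G A₀ σ → R A₁ ≤ (R A - β * σ) / α := by
    intro σ hσ
    apply csSup_le ⟨0, G_zero A₁⟩
    intro ρ hρ
    rw [le_div_iff₀ hα]
    have := main ρ σ hρ hσ
    linarith
  have : R A₀ ≤ (R A - α * R A₁) / β := by
    apply csSup_le ⟨0, G_zero A₀⟩
    intro σ hσ
    have := key σ hσ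
    rw [le_div_iff₀ hα] at this
    rw [le_div_iff₀ hβ]
    linarith
  rw [le_div_iff₀ hβ] at this
  linarith

theorem R_lines {A A₀ A₁ : Finset ℤ} (hA : A.Nonempty) (h0 : A₀ ⊆ A) (h1 : A₁ ⊆ A)
    (hc : Comb A₁ A₀) :
    812 / 1000 * R A₁ + 57 / 100 * R A₀ ≤ R A ∧ 899 / 1000 * R A₁ + 515 / 1000 * R A₀ ≤ R A ∧
    986 / 1000 * R A₁ + 42 / 100 * R A₀ ≤ R A ∧ R A₁ + 37 / 100 * R A₀ ≤ R A := by
  have h1' := R_line hA h0 h1 hc (α := 203 / 250) (β := 57 / 100) (s := 7 / 10) (by norm_num)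
    (by norm_num) (by norm_num) (fun ρ σ r a b c d e => F1_line a b c d e)
  have h2' := R_line hA h0 h1 hc (α := 899 / 1000) (β := 103 / 200) (s := 57 / 100) (by norm_num)
    (by norm_num) (by norm_num) (fun ρ σ r a b c d e => F2_line a b c d e)
  have h3' := R_line hA h0 h1 hc (α := 493 / 500) (β := 21 / 50) (s := 43 / 100) (by norm_num)
    (by norm_num) (by norm_num) (fun ρ σ r a b c d e => F3_line a b c d e)
  have h4' := R_line hA h0 h1 hc (α := 1) (β := 37 / 100) (s := 37 / 100) (by norm_num)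
    (by norm_num) (by norm_num) (fun ρ σ r a b c d e => F4_line a b c d e)
  refine ⟨by linarith, by linarith, by linarith, by linarith⟩

end Pool.Agent.TH887.SP
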