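import Pool.Agent.TH887.SP.Split

/-!
The main induction: `P6 A * P6 B ≤ |A * B|` for good sets.
-/

set_option autoImplicit false

namespace Pool.Agent.TH887.SP

open Finset H633R4.SP
open scoped Pointwise

theorem P6_single {A : Finset ℤ} (hA : A.Nonempty) (h : A.card ≤ 1) : P6 A ≤ 1 := by
  have h1 := P6_pow A
  have hc : A.card = 1 := le_antisymm h hA.card_pos
  have hR := one_le_R hA
  have h2 : P6 A ^ 6 ≤ 1 ^ 6 := by
    rw [h1, hc, one_pow, Nat.cast_one, one_pow]
    rw [div_le_one (by positivity)]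
    exact one_le_pow₀ hR
  exact le_of_pow_le_pow_left₀ (by norm_num) zero_le_one h2

theorem main6 : ∀ n : ℕ, ∀ A B : Finset ℤ, A.card + B.card ≤ n → A.Nonempty → B.Nonempty →
      Good A → Good B → 1 * (P6 A * P6 B) ≤ ((A * B).card : ℝ) := by
  intro n
  induction n with
  | zero =>
    intro A B hn hA _ _ _
    have := hA.card_pos
    omega
  | succ n ih =>
    intro A B hn hA hB hGA hGB
    by_cases hcase : ∀ p : ℕ, p.Prime → (∀ a ∈ A, ∀ a' ∈ A, padicValInt p a = padicValInt p a') ∧
        (∀ b ∈ B, ∀ b' ∈ B, padicValInt p b = padicValInt p b')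
    · have h1 : A.card ≤ 1 := Finset.card_le_one.2 fun a ha a' ha' =>
        hGA.abs a ha a' ha' (natAbs_eq_of_padic (hGA.ne a ha) (hGA.ne a' ha')
          fun p hp => (hcase p hp).1 a ha a' ha')
      have h2 : B.card ≤ 1 := Finset.card_le_one.2 fun a ha a' ha' =>
        hGB.abs a ha a' ha' (natAbs_eq_of_padic (hGB.ne a ha) (hGB.ne a' ha')
          fun p hp => (hcase p hp).2 a ha a' ha')
      have h3 := P6_single hA h1
      have h4 := P6_single hB h2
      have h5 : (1 : ℝ) ≤ ((A * B).card : ℝ) := by exact_mod_cast (hA.mul hB).card_pos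
      have h6 : P6 A * P6 B ≤ 1 * 1 := mul_le_mul h3 h4 (P6_nonneg B) zero_le_one
      linarith
    · simp only [not_forall] at hcase
      obtain ⟨p, hp, hnc⟩ := hcase
      haveI : Fact p.Prime := ⟨hp⟩
      obtain ⟨k, A₀, A', hA₀, hA₀A, hA'A, hcA, hvA₀, hvA', hvA, heA, hOSA⟩ := split6 p A hA hGA
      obtain ⟨l, B₀, B', hB₀, hB₀B, hB'B, hcB, hvB₀, hvB', hvB, heB, hOSB⟩ := split6 p B hB hGB
      have hcA₀ := hA₀.card_pos
      have hcB₀ := hB₀.card_pos
      -- valuations of products
      have hv : ∀ a ∈ A, ∀ b ∈ B, padicValInt p (a * b) = padicValInt p a + padicValInt p b :=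
        fun a ha b hb => padicValInt.mul (hGA.ne a ha) (hGB.ne b hb)
      have hv0 : ∀ u ∈ A₀ * B₀, padicValInt p u = k + l := by
        intro u hu
        obtain ⟨a, ha, b, hb, rfl⟩ := Finset.mem_mul.1 hu
        rw [hv a (hA₀A ha) b (hB₀B hb), hvA₀ a ha, hvB₀ b hb]
      have hv1 : ∀ u ∈ A' * B, k + l < padicValInt p u := by
        intro u hu
        obtain ⟨a, ha, b, hb, rfl⟩ := Finset.mem_mul.1 hu
        rw [hv a (hA'A ha) b hb]
        have h1 := hvA' a ha
        have h2 := hvB b hb
        omega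
      have hv2 : ∀ u ∈ A * B', k + l < padicValInt p u := by
        intro u hu
        obtain ⟨a, ha, b, hb, rfl⟩ := Finset.mem_mul.1 hu
        rw [hv a ha b (hB'B hb)]
        have h1 := hvA a ha
        have h2 := hvB' b hb
        omega
      have hs0 : A₀ * B₀ ⊆ A * B := Finset.mul_subset_mul hA₀A hB₀B
      have hs1 : A' * B ⊆ A * B := Finset.mul_subset_mul hA'A subset_rfl
      have hs2 : A * B' ⊆ A * B := Finset.mul_subset_mul subset_rfl hB'B
      have hc1 := card_split hs0 hs1 hv0 hv1
      have hc2 := card_split hs0 hs2 hv0 hv2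
      have hGA₀ := hGA.sub hA₀A
      have hGA' := hGA.sub hA'A
      have hGB₀ := hGB.sub hB₀B
      have hGB' := hGB.sub hB'B
      rcases A'.eq_empty_or_nonempty with hA' | hA'
      · have hA₀e := heA hA'
        rcases B'.eq_empty_or_nonempty with hB' | hB'
        · exfalso
          have hB₀e := heB hB'
          apply hnc
          constructor
          · intro a ha a' ha'
            rw [hvA₀ a (hA₀e ▸ ha), hvA₀ a' (hA₀e ▸ ha')]
          · intro b hb b' hb'
            rw [hvB₀ b (hB₀e ▸ hb), hvB₀ b' (hB₀e ▸ hb')]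
        · -- only `B` splits
          have hcB' := hB'.card_pos
          rw [hA₀e] at hc2
          have ih1 := ih A B₀ (by omega) hA hB₀ hGA hGB₀
          have ih2 := ih A B' (by omega) hA hB' hGA hGB'
          have := step_one (P6_nonneg A) (P6_pos hB) (P6_nonneg B₀) (P6_nonneg B') zero_le_one
            (hOSB hB') ih1 ih2
          linarith
      · have hcA' := hA'.card_pos
        rcases B'.eq_empty_or_nonempty with hB' | hB'
        · -- only `A` splits
          have hB₀e := heB hB'
          rw [hB₀e] at hc1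
          have ih1 := ih A₀ B (by omega) hA₀ hB hGA₀ hGB
          have ih2 := ih A' B (by omega) hA' hB hGA' hGB
          rw [mul_comm (P6 A₀)] at ih1
          rw [mul_comm (P6 A')] at ih2
          have := step_one (P6_nonneg B) (P6_pos hA) (P6_nonneg A₀) (P6_nonneg A') zero_le_one
            (hOSA hA') ih1 ih2
          rw [mul_comm (P6 A)]
          linarith
        · have hcB' := hB'.card_pos
          have ih0 := ih A₀ B₀ (by omega) hA₀ hB₀ hGA₀ hGB₀
          have ih1 := ih A' B (by omega) hA' hB hGA' hGB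
          have ih2 := ih A B' (by omega) hA hB' hGA hGB'
          have := step_two (N₀ := ((A₀ * B₀).card : ℝ))
            (M := ((A * B).card : ℝ) - ((A₀ * B₀).card : ℝ))
            (P6_pos hA) (P6_pos hB) (P6_nonneg A₀) (P6_nonneg B₀) zero_le_one
            (hOSA hA') (hOSB hB') ih0 (by linarith) (by linarith) (Nat.cast_nonneg _)
          linarith

/-- the energy form of the main theorem -/
theorem main_R6 (A B : Finset ℤ) (hA : A.Nonempty) (hB : B.Nonempty) (hGA : Good A)
    (hGB : Good B) :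
    ((A.card : ℝ) * B.card) ^ 5 ≤ (R A * R B) ^ 2 * ((A * B).card : ℝ) ^ 6 := by
  have h := main6 _ A B le_rfl hA hB hGA hGB
  rw [one_mul] at h
  have h1 := pow_le_pow_left₀ (mul_nonneg (P6_nonneg A) (P6_nonneg B)) h 6
  rw [mul_pow, P6_pow, P6_pow, div_mul_div_comm, ← mul_pow, ← mul_pow] at h1
  have hRA := one_le_R hA
  have hRB := one_le_R hB
  have hRR : 0 < R A * R B := by nlinarith
  rw [div_le_iff₀ (by positivity)] at h1
  linarith

/-- good sets: the inequality with constant `1` -/
theorem good_thm (A B : Finset ℤ) (hGA : Good A) (hGB : Good B) :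
    (A.card * B.card) ^ 5 ≤ (A + B).card ^ 2 * (A * B).card ^ 6 ∧
    (A.card * B.card) ^ 5 ≤ (A - B).card ^ 2 * (A * B).card ^ 6 := by
  rcases A.eq_empty_or_nonempty with hA | hA
  · subst hA; simp
  rcases B.eq_empty_or_nonempty with hB | hB
  · subst hB; simp
  have h := main_R6 A B hA hB hGA hGB
  obtain ⟨h1, h2⟩ := R_mul_le hA hB
  have hRR : 0 ≤ R A * R B :=
    mul_nonneg (le_trans zero_le_one (one_le_R hA)) (le_trans zero_le_one (one_le_R hB))
  have hP : (0 : ℝ) ≤ ((A * B).card : ℝ) ^ 6 := by positivity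
  constructor
  · have : ((A.card : ℝ) * B.card) ^ 5 ≤ ((A + B).card : ℝ) ^ 2 * ((A * B).card : ℝ) ^ 6 :=
      h.trans (mul_le_mul_of_nonneg_right (pow_le_pow_left₀ hRR h1 2) hP)
    exact_mod_cast this
  · have : ((A.card : ℝ) * B.card) ^ 5 ≤ ((A - B).card : ℝ) ^ 2 * ((A * B).card : ℝ) ^ 6 :=
      h.trans (mul_le_mul_of_nonneg_right (pow_le_pow_left₀ hRR h2 2) hP)
    exact_mod_cast this

end Pool.Agent.TH887.SP
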