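import Mathlib

/-!
The one-set inequality `P ^ 2 ≤ P₀ ^ 2 + P' * P` for the sixth root `P = (a ^ 5 / R ^ 2) ^ (1/6)`.
-/

set_option autoImplicit false

namespace Pool.Agent.TH887.SP

theorem amgm {u v : ℝ} (hu : 0 ≤ u) (hv : 0 ≤ v) : u ^ 3 * v ^ 2 ≤ ((3 * u + 2 * v) / 5) ^ 5 := by
  have e : ((3 * u + 2 * v) / 5) ^ 5 - u ^ 3 * v ^ 2 =
      (u - v) ^ 2 * (243 * u ^ 3 + 1296 * u ^ 2 * v + 304 * u * v ^ 2 + 32 * v ^ 3) / 3125 := by
    ring
  have : 0 ≤ (u - v) ^ 2 * (243 * u ^ 3 + 1296 * u ^ 2 * v + 304 * u * v ^ 2 + 32 * v ^ 3) / 3125 := by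
    positivity
  linarith

theorem amgm' {c γ u v x : ℝ} (hc : 0 ≤ c) (hγ : 0 ≤ γ) (hcγ : 1 ≤ c ^ 3 * γ ^ 2) (hu : 0 ≤ u)
    (hv : 0 ≤ v) (hx : x ^ 5 = u ^ 3 * v ^ 2) : x ≤ (3 * (c * u) + 2 * (γ * v)) / 5 := by
  have h1 := amgm (mul_nonneg hc hu) (mul_nonneg hγ hv)
  have h2 : x ^ 5 ≤ ((3 * (c * u) + 2 * (γ * v)) / 5) ^ 5 := by
    refine le_trans ?_ h1
    rw [hx, mul_pow, mul_pow]
    have : 0 ≤ u ^ 3 * v ^ 2 := by positivity
    nlinarith
  have h3 : 0 ≤ (3 * (c * u) + 2 * (γ * v)) / 5 := by positivity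
  exact le_of_pow_le_pow_left₀ (by norm_num) h3 h2

/-- one linear inequality settles a segment of the range of `m` -/
theorem seg {α β A B l h m μ X Y x1 x0 : ℝ} (hα : 0 ≤ α) (hβ : 0 ≤ β) (hA : 0 < A) (hB : 0 < B)
    (hA3 : 1 ≤ A ^ 3 * α ^ 2) (hB3 : 1 ≤ B ^ 3 * β ^ 2) (hl : A * l ^ 2 + B * (1 - l) ≤ 1)
    (hh : A * h ^ 2 + B * (1 - h) ≤ 1) (hm : 0 ≤ m) (hμ : 0 ≤ μ) (hX : 0 ≤ X) (hY : 0 ≤ Y)
    (hx1 : x1 ^ 5 = m ^ 6 * X ^ 2) (hx0 : x0 ^ 5 = μ ^ 3 * Y ^ 2) (hline : α * X + β * Y ≤ 1)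
    (hs : μ + m < 1) (hlm : l ≤ m) (hmh : m ≤ h) : x1 + x0 < 1 := by
  have h1 := amgm' hA.le hα hA3 (sq_nonneg m) hX (x := x1) (by rw [hx1]; ring)
  have h2 := amgm' hB.le hβ hB3 hμ hY (x := x0) hx0
  have h3 : A * m ^ 2 + B * (1 - m) ≤ 1 := by
    rcases hlm.eq_or_lt with he | hlt
    · rw [← he]; exact hl
    have hlh : l < h := lt_of_lt_of_le hlt hmh
    -- convexity
    have c1 : 0 ≤ A * ((m - l) * (h - m)) :=
      mul_nonneg hA.le (mul_nonneg (by linarith) (by linarith))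
    have c2 : (h - l) * (A * m ^ 2 + B * (1 - m)) ≤ (h - l) * 1 := by
      have t1 := mul_le_mul_of_nonneg_left hl (show 0 ≤ h - m by linarith)
      have t2 := mul_le_mul_of_nonneg_left hh (show 0 ≤ m - l by linarith)
      have t3 := mul_le_mul_of_nonneg_left (show 0 ≤ A * ((m - l) * (h - m)) from c1)
        (show 0 ≤ h - l by linarith)
      nlinarith
    exact le_of_mul_le_mul_left c2 (by linarith)
  have h4 : B * μ < B * (1 - m) := mul_lt_mul_of_pos_left (by linarith) hB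
  linarith

theorem small {m μ X Y x1 x0 : ℝ} (hm : 0 ≤ m) (hμ : 0 ≤ μ) (hX : 0 ≤ X) (hX1 : X ≤ 1)
    (hY : 0 ≤ Y) (hY1 : Y ≤ 1)
    (hx1 : x1 ^ 5 = m ^ 6 * X ^ 2) (hx0 : x0 ^ 5 = μ ^ 3 * Y ^ 2)
    (hs : μ + m < 1) (hm7 : m ≤ 7 / 100) : x1 + x0 < 1 := by
  have h1 : x1 ≤ 6 / 10 * m := by
    apply le_of_pow_le_pow_left₀ (n := 5) (by norm_num) (by positivity)
    rw [hx1]
    have a1 : X ^ 2 ≤ 1 := pow_le_one₀ hX hX1
    have a2 : 0 ≤ m ^ 5 := by positivity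
    calc m ^ 6 * X ^ 2 ≤ m ^ 6 * 1 := mul_le_mul_of_nonneg_left a1 (by positivity)
      _ = m ^ 5 * m := by ring
      _ ≤ m ^ 5 * (7 / 100) := mul_le_mul_of_nonneg_left hm7 a2
      _ ≤ (6 / 10 * m) ^ 5 := by rw [mul_pow]; norm_num; nlinarith
  have h2 : x0 < 1 - 6 / 10 * m := by
    apply lt_of_pow_lt_pow_left₀ 5 (by linarith)
    rw [hx0]
    have a1 : Y ^ 2 ≤ 1 := pow_le_one₀ hY hY1
    have a2 : μ ^ 3 < (1 - m) ^ 3 := pow_lt_pow_left₀ (by linarith) hμ (by norm_num)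
    have a3 : μ ^ 3 * Y ^ 2 ≤ μ ^ 3 * 1 := mul_le_mul_of_nonneg_left a1 (by positivity)
    have a4 : (1 - m) ^ 3 ≤ (1 - 6 / 10 * m) ^ 5 := by
      have e : (1 - 6 / 10 * m) ^ 5 - (1 - m) ^ 3 =
          m ^ 2 * ((6 / 10 - 116 / 100 * m) + 81 / 125 * m ^ 2 - 243 / 3125 * m ^ 3) := by
        ring
      have b1 : 0 ≤ m ^ 2 := by positivity
      have b3 : m ^ 3 ≤ m ^ 2 := by nlinarith
      have b2 : 0 ≤ (6 / 10 - 116 / 100 * m) + 81 / 125 * m ^ 2 - 243 / 3125 * m ^ 3 := by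
        nlinarith
      have := mul_nonneg b1 b2
      linarith
    linarith
  linarith

theorem core {m μ X Y x1 x0 : ℝ} (hm : 0 < m) (hμ : 0 < μ) (hX : 0 < X) (hX1 : X ≤ 1)
    (hY : 0 < Y) (hY1 : Y ≤ 1)
    (hx1 : x1 ^ 5 = m ^ 6 * X ^ 2) (hx0 : x0 ^ 5 = μ ^ 3 * Y ^ 2)
    (F1 : 812 / 1000 * X + 57 / 100 * Y ≤ 1) (F2 : 899 / 1000 * X + 515 / 1000 * Y ≤ 1)
    (F3 : 986 / 1000 * X + 42 / 100 * Y ≤ 1) (F4 : X + 37 / 100 * Y ≤ 1)
    (hs : μ + m < 1) : x1 + x0 < 1 := by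
  rcases le_total m (7 / 100) with h0 | h0
  · exact small hm.le hμ.le hX.le hX1 hY.le hY1 hx1 hx0 hs h0
  rcases le_total m (447 / 2000) with h1 | h1
  · exact seg (α := 1827 / 12500) (β := 4613 / 5000) (A := 360397 / 100000) (B := 52759 / 50000) (l := 7 / 100) (h := 447 / 2000)
      (by norm_num) (by norm_num) (by norm_num) (by norm_num) (by norm_num) (by norm_num)
      (by norm_num) (by norm_num) hm.le hμ.le hX.le hY.le hx1 hx0 (by linarith) hs (by assumption) (by assumption)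
  rcases le_total m (199 / 500) with h2 | h2
  · exact seg (α := 1218 / 3125) (β := 496 / 625) (A := 93707 / 50000) (B := 116663 / 100000) (l := 447 / 2000) (h := 199 / 500)
      (by norm_num) (by norm_num) (by norm_num) (by norm_num) (by norm_num) (by norm_num)
      (by norm_num) (by norm_num) hm.le hμ.le hX.le hY.le hx1 hx0 (by linarith) hs (by assumption) (by assumption)
  rcases le_total m (1043 / 2000) with h3 | h3
  · exact seg (α := 7511 / 12500) (β := 3409 / 5000) (A := 28087 / 20000) (B := 129091 / 100000) (l := 199 / 500) (h := 1043 / 2000)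
      (by norm_num) (by norm_num) (by norm_num) (by norm_num) (by norm_num) (by norm_num)
      (by norm_num) (by norm_num) hm.le hμ.le hX.le hY.le hx1 hx0 (by linarith) hs (by assumption) (by assumption)
  rcases le_total m (6303 / 10000) with h4 | h4
  · exact seg (α := 4669 / 6250) (β := 1511 / 2500) (A := 60731 / 50000) (B := 13989 / 10000) (l := 1043 / 2000) (h := 6303 / 10000)
      (by norm_num) (by norm_num) (by norm_num) (by norm_num) (by norm_num) (by norm_num)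
      (by norm_num) (by norm_num) hm.le hμ.le hX.le hY.le hx1 hx0 (by linarith) hs (by assumption) (by assumption)
  rcases le_total m (783 / 1000) with h5 | h5
  · exact seg (α := 44167 / 50000) (β := 5249 / 10000) (A := 54311 / 50000) (B := 1921 / 1250) (l := 6303 / 10000) (h := 783 / 1000)
      (by norm_num) (by norm_num) (by norm_num) (by norm_num) (by norm_num) (by norm_num)
      (by norm_num) (by norm_num) hm.le hμ.le hX.le hY.le hx1 hx0 (by linarith) hs (by assumption) (by assumption)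
  rcases le_total m (21 / 25) with h6 | h6
  · exact seg (α := 19111 / 20000) (β := 1813 / 4000) (A := 51539 / 50000) (B := 42369 / 25000) (l := 783 / 1000) (h := 21 / 25)
      (by norm_num) (by norm_num) (by norm_num) (by norm_num) (by norm_num) (by norm_num)
      (by norm_num) (by norm_num) hm.le hμ.le hX.le hY.le hx1 hx0 (by linarith) hs (by assumption) (by assumption)
  rcases le_total m (189 / 200) with h7 | h7
  · exact seg (α := 493 / 500) (β := 21 / 50) (A := 20189 / 20000) (B := 178307 / 100000) (l := 21 / 25) (h := 189 / 200)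
      (by norm_num) (by norm_num) (by norm_num) (by norm_num) (by norm_num) (by norm_num)
      (by norm_num) (by norm_num) hm.le hμ.le hX.le hY.le hx1 hx0 (by linarith) hs (by assumption) (by assumption)
  have hm1 : m ≤ 1 := by linarith
  exact seg (α := 1) (β := 37 / 100) (A := 1) (B := 194029 / 100000) (l := 189 / 200) (h := 1)
      (by norm_num) (by norm_num) (by norm_num) (by norm_num) (by norm_num) (by norm_num)
      (by norm_num) (by norm_num) hm.le hμ.le hX.le hY.le hx1 hx0 (by linarith) hs (by assumption) (by assumption)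

/-- the sixth root of `a ^ 5 / r ^ 2` -/
noncomputable def q6 (a r : ℝ) : ℝ := (a ^ 5 / r ^ 2) ^ (1 / 6 : ℝ)

theorem q6_nonneg {a r : ℝ} (ha : 0 ≤ a) : 0 ≤ q6 a r := by
  unfold q6
  exact Real.rpow_nonneg (by positivity) _

theorem q6_pow {a r : ℝ} (ha : 0 ≤ a) : q6 a r ^ 6 = a ^ 5 / r ^ 2 := by
  unfold q6
  have h : (0 : ℝ) ≤ a ^ 5 / r ^ 2 := by positivity
  rw [← Real.rpow_natCast, ← Real.rpow_mul h]
  norm_num

theorem q6_pos {a r : ℝ} (ha : 0 < a) (hr : 0 < r) : 0 < q6 a r := by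
  unfold q6
  exact Real.rpow_pos_of_pos (by positivity) _

theorem os {a₀ a' R₀ R' ρ : ℝ} (ha₀ : 0 < a₀) (ha' : 0 < a') (hR₀ : 0 < R₀) (hR' : 0 < R')
    (h0 : R₀ ≤ ρ) (h1 : R' ≤ ρ)
    (F1 : 812 / 1000 * R' + 57 / 100 * R₀ ≤ ρ) (F2 : 899 / 1000 * R' + 515 / 1000 * R₀ ≤ ρ)
    (F3 : 986 / 1000 * R' + 42 / 100 * R₀ ≤ ρ) (F4 : R' + 37 / 100 * R₀ ≤ ρ) :
    q6 (a₀ + a') ρ ^ 2 ≤ q6 a₀ R₀ ^ 2 + q6 a' R' * q6 (a₀ + a') ρ := by
  have hρ : 0 < ρ := by linarith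
  have ha : 0 < a₀ + a' := by linarith
  set p := q6 (a₀ + a') ρ with hp
  set p₀ := q6 a₀ R₀ with hp₀
  set p' := q6 a' R' with hp'
  have pp : 0 < p := q6_pos ha hρ
  have pp₀ : 0 < p₀ := q6_pos ha₀ hR₀
  have pp' : 0 < p' := q6_pos ha' hR'
  have e : p ^ 6 = (a₀ + a') ^ 5 / ρ ^ 2 := q6_pow ha.le
  have e₀ : p₀ ^ 6 = a₀ ^ 5 / R₀ ^ 2 := q6_pow ha₀.le
  have e' : p' ^ 6 = a' ^ 5 / R' ^ 2 := q6_pow ha'.le
  by_contra hcon
  rw [not_le] at hcon
  have key := core (m := p' / p) (μ := p₀ ^ 2 / p ^ 2) (X := R' / ρ) (Y := R₀ / ρ)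
    (x1 := a' / (a₀ + a')) (x0 := a₀ / (a₀ + a')) (by positivity) (by positivity) (by positivity)
    ((div_le_one hρ).2 h1) (by positivity) ((div_le_one hρ).2 h0) (by
      rw [div_pow, div_pow, e', e]
      field_simp) (by
      rw [div_pow, div_pow, ← pow_mul, ← pow_mul, e₀, e]
      field_simp) (by
      rw [← mul_div_assoc, ← mul_div_assoc, ← add_div, div_le_one hρ]; exact F1) (by
      rw [← mul_div_assoc, ← mul_div_assoc, ← add_div, div_le_one hρ]; exact F2) (by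
      rw [← mul_div_assoc, ← mul_div_assoc, ← add_div, div_le_one hρ]; exact F3) (by
      rw [← mul_div_assoc, ← add_div, div_le_one hρ]; exact F4) (by
      have : p₀ ^ 2 / p ^ 2 + p' / p = (p₀ ^ 2 + p' * p) / p ^ 2 := by field_simp
      rw [this, div_lt_one (by positivity)]; exact hcon)
  rw [← add_div, add_comm a', div_self ha.ne'] at key
  exact lt_irrefl _ key

end Pool.Agent.TH887.SP
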