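import Pool.Agent.H633R4.SP.Main
import Pool.Agent.TH887.SP.Func2
import Pool.Agent.TH887.SP.OneSet

/-!
Splitting a set at a prime: the improved inequality applies to every split of a good set.
-/

set_option autoImplicit false

namespace Pool.Agent.TH887.SP

open Finset H633R4.SP
open scoped Pointwise

/-- the sixth root of `|A| ^ 5 / R A ^ 2` -/
noncomputable def P6 (A : Finset ℤ) : ℝ := q6 (A.card : ℝ) (R A)

theorem P6_nonneg (A : Finset ℤ) : 0 ≤ P6 A := q6_nonneg (Nat.cast_nonneg _)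

theorem P6_pos {A : Finset ℤ} (hA : A.Nonempty) : 0 < P6 A :=
  q6_pos (by exact_mod_cast hA.card_pos) (lt_of_lt_of_le one_pos (one_le_R hA))

theorem P6_pow (A : Finset ℤ) : P6 A ^ 6 = (A.card : ℝ) ^ 5 / R A ^ 2 :=
  q6_pow (Nat.cast_nonneg _)

/-- `2` and `3` are harmless for `A` -/
structure Good (A : Finset ℤ) : Prop where
  ne : ∀ a ∈ A, a ≠ 0
  abs : ∀ a ∈ A, ∀ b ∈ A, a.natAbs = b.natAbs → a = b
  two : ∀ a ∈ A, ∀ a' ∈ A, ∀ b ∈ A, padicValInt 2 a = padicValInt 2 a' →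
    padicValInt 2 a < padicValInt 2 b →
      (2 : ℤ) ^ (padicValInt 2 a + 2) ∣ b ∧ (2 : ℤ) ^ (padicValInt 2 a + 2) ∣ a - a'
  three : ∀ a ∈ A, ∀ a' ∈ A, ∀ b ∈ A, padicValInt 3 a = padicValInt 3 a' →
    padicValInt 3 a < padicValInt 3 b → (3 : ℤ) ^ (padicValInt 3 a + 1) ∣ a - a'

theorem Good.sub {A A' : Finset ℤ} (hG : Good A) (h : A' ⊆ A) : Good A' where
  ne a ha := hG.ne a (h ha)
  abs a ha b hb := hG.abs a (h ha) b (h hb)
  two a ha a' ha' b hb := hG.two a (h ha) a' (h ha') b (h hb)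
  three a ha a' ha' b hb := hG.three a (h ha) a' (h ha') b (h hb)

theorem cast_zero_of_dvd {m : ℕ} {n : ℤ} (h : (m : ℤ) ∣ n) : ((n : ℤ) : ZMod m) = 0 :=
  (ZMod.intCast_zmod_eq_zero_iff_dvd n m).2 h

theorem mul_eq_zero_of_coprime {m : ℕ} {c : ℕ} (hc : Nat.Coprime c m) (x : ZMod m)
    (h : (c : ZMod m) * x = 0) : x = 0 := by
  have hu : IsUnit (c : ZMod m) := (ZMod.isUnit_iff_coprime c m).2 hc
  exact (IsUnit.mul_right_eq_zero hu).1 h

theorem comb_split (p : ℕ) [hp : Fact p.Prime] {A A₀ A' : Finset ℤ} (hG : Good A)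
    (h0A : A₀ ⊆ A) (h'A : A' ⊆ A) (hne0 : A₀.Nonempty) (hne' : A'.Nonempty) {k : ℕ}
    (h0 : ∀ a ∈ A₀, padicValInt p a = k) (h' : ∀ a ∈ A', k < padicValInt p a) : Comb A' A₀ := by
  obtain ⟨a₀, ha₀⟩ := hne0
  obtain ⟨b₀, hb₀⟩ := hne'
  intro T g f g0 f0 gA fA
  have hgA : ∀ n, g n ≠ 0 → n ∈ A' := fun n hn => by by_contra h; exact hn (gA n h)
  have hfA : ∀ n, f n ≠ 0 → n ∈ A₀ := fun n hn => by by_contra h; exact hn (fA n h)
  have hnd : ∀ (j : ℕ), k < j → ∀ a ∈ A₀, ¬ (p : ℤ) ^ j ∣ a := by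
    intro j hj a ha hd
    rw [padicValInt_dvd_iff] at hd
    rcases hd with h | h
    · exact hG.ne a (h0A ha) h
    · have := h0 a ha
      omega
  by_cases h2 : p = 2
  · subst h2
    have hval : padicValInt 2 a₀ = k := h0 a₀ ha₀
    have htwo : ∀ n ∈ A', ((2 ^ (k + 2) : ℕ) : ℤ) ∣ n := by
      intro n hn
      have := (hG.two a₀ (h0A ha₀) a₀ (h0A ha₀) n (h'A hn) rfl (by rw [hval]; exact h' n hn)).1
      rw [hval] at this
      exact_mod_cast this
    have hsame : ∀ n ∈ A₀, ((2 ^ (k + 2) : ℕ) : ℤ) ∣ a₀ - n := by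
      intro n hn
      have := (hG.two a₀ (h0A ha₀) n (h0A hn) b₀ (h'A hb₀) (by rw [hval, h0 n hn])
        (by rw [hval]; exact h' b₀ hb₀)).2
      rw [hval] at this
      exact_mod_cast this
    apply al_one (m := 2 ^ (k + 2)) (r := (a₀ : ZMod (2 ^ (k + 2))))
    · intro n hn
      exact cast_zero_of_dvd (htwo n (hgA n hn))
    · intro n hn
      exact (ZMod.intCast_eq_intCast_iff_dvd_sub _ _ _).2 (hsame n (hfA n hn))
    · intro h
      rw [ZMod.intCast_zmod_eq_zero_iff_dvd] at h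
      exact hnd (k + 2) (by omega) a₀ ha₀ (by exact_mod_cast h)
    · intro h
      have e : (2 : ZMod (2 ^ (k + 2))) * (a₀ : ZMod (2 ^ (k + 2))) =
          ((2 * a₀ : ℤ) : ZMod (2 ^ (k + 2))) := by push_cast; ring
      rw [e, ZMod.intCast_zmod_eq_zero_iff_dvd] at h
      have h3 : (2 : ℤ) * 2 ^ (k + 1) ∣ 2 * a₀ := by
        have e2 : ((2 ^ (k + 2) : ℕ) : ℤ) = 2 * 2 ^ (k + 1) := by push_cast; ring
        rw [← e2]; exact h
      have h4 : (2 : ℤ) ^ (k + 1) ∣ a₀ := Int.dvd_of_mul_dvd_mul_left (by norm_num) h3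
      exact hnd (k + 1) (by omega) a₀ ha₀ (by exact_mod_cast h4)
  by_cases h3 : p = 3
  · subst h3
    have hval : padicValInt 3 a₀ = k := h0 a₀ ha₀
    have hsame : ∀ n ∈ A₀, ((3 ^ (k + 1) : ℕ) : ℤ) ∣ a₀ - n := by
      intro n hn
      have := hG.three a₀ (h0A ha₀) n (h0A hn) b₀ (h'A hb₀) (by rw [hval, h0 n hn])
        (by rw [hval]; exact h' b₀ hb₀)
      rw [hval] at this
      exact_mod_cast this
    apply al_one (m := 3 ^ (k + 1)) (r := (a₀ : ZMod (3 ^ (k + 1))))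
    · intro n hn
      apply cast_zero_of_dvd
      have h5 : ((3 : ℕ) : ℤ) ^ (k + 1) ∣ n :=
        (padicValInt_dvd_iff (p := 3) (k + 1) n).2 (Or.inr (h' n (hgA n hn)))
      exact_mod_cast h5
    · intro n hn
      exact (ZMod.intCast_eq_intCast_iff_dvd_sub _ _ _).2 (hsame n (hfA n hn))
    · intro h
      rw [ZMod.intCast_zmod_eq_zero_iff_dvd] at h
      exact hnd (k + 1) (by omega) a₀ ha₀ (by exact_mod_cast h)
    · intro h
      have h5 : (a₀ : ZMod (3 ^ (k + 1))) = 0 :=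
        mul_eq_zero_of_coprime (c := 2) (Nat.Coprime.pow_right _ (by norm_num)) _
          (by exact_mod_cast h)
      rw [ZMod.intCast_zmod_eq_zero_iff_dvd] at h5
      exact hnd (k + 1) (by omega) a₀ ha₀ (by exact_mod_cast h5)
  · have hc2 : Nat.Coprime 2 (p ^ (k + 1)) :=
      Nat.Coprime.pow_right _ ((Nat.coprime_primes Nat.prime_two hp.out).2 (Ne.symm h2))
    have hc3 : Nat.Coprime 3 (p ^ (k + 1)) :=
      Nat.Coprime.pow_right _ ((Nat.coprime_primes Nat.prime_three hp.out).2 (Ne.symm h3))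
    apply al_big (m := p ^ (k + 1)) f0
    · intro n hn
      apply cast_zero_of_dvd
      have h5 : (p : ℤ) ^ (k + 1) ∣ n :=
        (padicValInt_dvd_iff (p := p) (k + 1) n).2 (Or.inr (h' n (hgA n hn)))
      exact_mod_cast h5
    · intro n hn h
      rw [ZMod.intCast_zmod_eq_zero_iff_dvd] at h
      exact hnd (k + 1) (by omega) n (hfA n hn) (by exact_mod_cast h)
    · intro x hx
      exact mul_eq_zero_of_coprime hc2 x (by exact_mod_cast hx)
    · intro x hx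
      exact mul_eq_zero_of_coprime hc3 x (by exact_mod_cast hx)

/-- splitting off the lowest valuation class -/
theorem split6 (p : ℕ) [Fact p.Prime] (A : Finset ℤ) (hA : A.Nonempty) (hG : Good A) :
    ∃ k : ℕ, ∃ A₀ A' : Finset ℤ, A₀.Nonempty ∧ A₀ ⊆ A ∧ A' ⊆ A ∧ A₀.card + A'.card = A.card ∧
      (∀ a ∈ A₀, padicValInt p a = k) ∧ (∀ a ∈ A', k < padicValInt p a) ∧
      (∀ a ∈ A, k ≤ padicValInt p a) ∧ (A' = ∅ → A₀ = A) ∧
      (A'.Nonempty → P6 A ^ 2 ≤ P6 A₀ ^ 2 + P6 A' * P6 A) := by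
  obtain ⟨k, A₀, A', hne, h0A, h'A, hcard, h0, h', hmin, hE, -⟩ := split p A hA hG.ne
  refine ⟨k, A₀, A', hne, h0A, h'A, hcard, h0, h', hmin, hE, fun hne' => ?_⟩
  obtain ⟨F1, F2, F3, F4⟩ := R_lines hA h0A h'A (comb_split p hG h0A h'A hne hne' h0 h')
  have h := os (a₀ := (A₀.card : ℝ)) (a' := (A'.card : ℝ))
    (by exact_mod_cast hne.card_pos) (by exact_mod_cast hne'.card_pos)
    (lt_of_lt_of_le one_pos (one_le_R hne)) (lt_of_lt_of_le one_pos (one_le_R hne'))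
    (R_sub hne h0A) (R_sub hne' h'A) F1 F2 F3 F4
  have e : (A₀.card : ℝ) + (A'.card : ℝ) = (A.card : ℝ) := by exact_mod_cast hcard
  rw [e] at h
  exact h

end Pool.Agent.TH887.SP
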